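import Pool.Agent.Helper93.TCU.Defs
import Pool.Agent.Helper3.TCS.Bas

/-!
# Basic facts for one step (as `Pool.Agent.Helper3.TCS.Bas`)
-/

set_option autoImplicit false

namespace Pool.TCU

open Pool.TC Pool.TCM Pool.TCS Finset
open scoped Classical

section

variable {V κ : Type} [Fintype V] [Fintype κ] {S : CS V κ} {U : Finset V} {L : V → Finset κ}
  {D l m K : ℕ} {x : ℝ} {q : V → κ → ℝ} {Lam : ℝ}

namespace Hyp

theorem mpos (h : Hyp S U L D l m K x q Lam) : (0 : ℝ) < m := by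
  have h1 := h.mK
  have h2 := h.K24
  have : 0 < m := by omega
  exact_mod_cast this

theorem m192 (h : Hyp S U L D l m K x q Lam) : 192 ≤ m := by
  have h1 := h.mK
  have h2 := h.K24
  omega

theorem Kpos (h : Hyp S U L D l m K x q Lam) : (24 : ℝ) ≤ K := by exact_mod_cast h.K24

theorem lpos (h : Hyp S U L D l m K x q Lam) : (0 : ℝ) < l := by exact_mod_cast h.l0

theorem l1 (h : Hyp S U L D l m K x q Lam) : (1 : ℝ) ≤ l := by exact_mod_cast h.l0

theorem Lpos (h : Hyp S U L D l m K x q Lam) : 0 < Lam := lt_of_lt_of_le one_pos h.L1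

theorem al0 (h : Hyp S U L D l m K x q Lam) : 0 < 1 / (m : ℝ) := one_div_pos.2 h.mpos

theorem alK (h : Hyp S U L D l m K x q Lam) : (K : ℝ) * (1 / (m : ℝ)) ≤ 1 / 8 := by
  have h1 : 8 * (K : ℝ) ≤ m := by exact_mod_cast h.mK
  rw [mul_one_div, div_le_div_iff₀ h.mpos (by norm_num)]
  linarith

theorem al1 (h : Hyp S U L D l m K x q Lam) : 1 / (m : ℝ) ≤ 1 / 192 := by
  apply one_div_le_one_div_of_le (by norm_num)
  exact_mod_cast h.m192

theorem bet_pos (h : Hyp S U L D l m K x q Lam) : 0 < bet m K := by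
  unfold bet
  have h1 := h.al0
  have h2 := h.al1
  have : 0 < 1 - 1 / (m : ℝ) := by linarith
  positivity

theorem bet_le (h : Hyp S U L D l m K x q Lam) : bet m K ≤ 1 / (m : ℝ) := by
  unfold bet
  have h1 := h.al0
  have h2 := h.al1
  exact mul_le_of_le_one_right h1.le (pow_le_one₀ (by linarith) (by linarith))

theorem bet_le' (h : Hyp S U L D l m K x q Lam) : bet m K ≤ 1 / 192 := h.bet_le.trans h.al1

theorem betK (h : Hyp S U L D l m K x q Lam) : (K : ℝ) * bet m K ≤ 1 / 8 := by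
  have h1 := h.bet_le
  have h2 := h.alK
  have h3 := h.Kpos
  nlinarith

theorem Pn2 (h : Hyp S U L D l m K x q Lam) {u : V} (hu : u ∈ U) {a : κ} (ha : a ∈ L u) :
    ((Pn S U L u a).card : ℝ) ≤ 2 * l := h.hP u hu a ha

theorem Cv2 (h : Hyp S U L D l m K x q Lam) (v : V) : ((Cv S U L v).card : ℝ) ≤ 2 * l :=
  (h.hC v).trans h.x1

theorem betPn (h : Hyp S U L D l m K x q Lam) {u : V} (hu : u ∈ U) {a : κ} (ha : a ∈ L u) :
    bet m K * (Pn S U L u a).card / l ≤ 1 / 96 := by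
  have h1 := h.Pn2 hu ha
  have h2 := h.bet_le'
  have h3 := h.bet_pos
  rw [div_le_iff₀ h.lpos]
  have h4 : (0 : ℝ) ≤ (Pn S U L u a).card := Nat.cast_nonneg _
  nlinarith

theorem betCv (h : Hyp S U L D l m K x q Lam) (v : V) :
    bet m K * (Cv S U L v).card / l ≤ 1 / 96 := by
  have h1 := h.Cv2 v
  have h2 := h.bet_le'
  have h3 := h.bet_pos
  rw [div_le_iff₀ h.lpos]
  have h4 : (0 : ℝ) ≤ (Cv S U L v).card := Nat.cast_nonneg _
  nlinarith

theorem betx (h : Hyp S U L D l m K x q Lam) : bet m K * x / l ≤ 1 / 96 := by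
  have h1 := h.x1
  have h2 := h.bet_le'
  have h3 := h.bet_pos
  rw [div_le_iff₀ h.lpos]
  have h4 := h.x0
  nlinarith

theorem betx0 (h : Hyp S U L D l m K x q Lam) : 0 ≤ bet m K * x / l := by
  have h3 := h.bet_pos
  have h4 := h.x0
  have h5 := h.lpos
  positivity

theorem pq_nonneg (h : Hyp S U L D l m K x q Lam) {u : V} (hu : u ∈ U) {a : κ} (ha : a ∈ L u) :
    0 ≤ pq S U L l m K u a := by
  unfold pq
  have h1 := npair_le S (Pn S U L u a)
  have h2 := h.betPn hu ha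
  have h3 := h.bet_pos
  have h4 := h.lpos
  set t : ℝ := bet m K * (Pn S U L u a).card / l with ht
  have h5 : 0 ≤ t := by rw [ht]; positivity
  have h6 : bet m K ^ 2 / 2 * npair S (Pn S U L u a) / (l : ℝ) ^ 2 ≤ t ^ 2 / 4 := by
    rw [ht, div_pow, mul_pow]
    have : bet m K ^ 2 / 2 * npair S (Pn S U L u a) ≤
        bet m K ^ 2 / 2 * ((Pn S U L u a).card ^ 2 / 2) :=
      mul_le_mul_of_nonneg_left h1 (by positivity)
    calc bet m K ^ 2 / 2 * npair S (Pn S U L u a) / (l : ℝ) ^ 2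
        ≤ bet m K ^ 2 / 2 * ((Pn S U L u a).card ^ 2 / 2) / (l : ℝ) ^ 2 := by gcongr
      _ = bet m K ^ 2 * (Pn S U L u a).card ^ 2 / (l : ℝ) ^ 2 / 4 := by ring
  nlinarith

theorem pq_le (h : Hyp S U L D l m K x q Lam) {u : V} (hu : u ∈ U) {a : κ} (ha : a ∈ L u) :
    pq S U L l m K u a ≤ 1 / 96 := by
  have h1 := h.betPn hu ha
  have h2 := npair_nonneg S (Pn S U L u a)
  have h3 := h.lpos
  unfold pq
  have : 0 ≤ bet m K ^ 2 / 2 * npair S (Pn S U L u a) / (l : ℝ) ^ 2 := by positivity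
  linarith

theorem fK_nonneg (h : Hyp S U L D l m K x q Lam) {u : V} (hu : u ∈ U) {a : κ} (ha : a ∈ L u) :
    0 ≤ fK S U L l m K q u a := by
  unfold fK
  have h1 := h.pq_le hu ha
  have h2 := h.hq u hu a ha
  apply div_nonneg <;> linarith

theorem fK_le (h : Hyp S U L D l m K x q Lam) {u : V} (hu : u ∈ U) {a : κ} (ha : a ∈ L u) :
    fK S U L l m K q u a ≤ 1 / 2 := by
  unfold fK
  have h1 := h.pq_le hu ha
  have h2 := h.pq_nonneg hu ha
  have h3 := h.q1 u a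
  rw [div_le_iff₀ (by linarith)]
  linarith

/-- the equalized probability -/
theorem fK_mul (h : Hyp S U L D l m K x q Lam) {u : V} (hu : u ∈ U) {a : κ} (ha : a ∈ L u) :
    (1 - fK S U L l m K q u a) * (1 - pq S U L l m K u a) = 1 - q u a := by
  have h1 := h.pq_le hu ha
  have h2 : 1 - pq S U L l m K u a ≠ 0 := by linarith
  unfold fK
  field_simp
  ring

/-- lower bound for the equalizing probability -/
theorem fK_ge (h : Hyp S U L D l m K x q Lam) {u : V} (hu : u ∈ U) {a : κ} (ha : a ∈ L u) :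
    q u a - pq S U L l m K u a ≤ fK S U L l m K q u a := by
  unfold fK
  have h1 := h.pq_le hu ha
  have h2 := h.hq u hu a ha
  have h3 := h.pq_nonneg hu ha
  rw [le_div_iff₀ (by linarith)]
  nlinarith

theorem eR_nonneg (h : Hyp S U L D l m K x q Lam) (v : V) : 0 ≤ eR S U L l m K x v := by
  unfold eR
  have h1 := h.betCv v
  have h2 := h.hC v
  have h3 := h.bet_pos
  have h4 := h.lpos
  apply div_nonneg _ (by linarith)
  rw [← sub_div]
  apply div_nonneg _ h4.le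
  nlinarith

theorem eR_le (h : Hyp S U L D l m K x q Lam) (v : V) : eR S U L l m K x v ≤ 1 / 2 := by
  unfold eR
  have h1 := h.betCv v
  have h2 := h.betx
  have h3 := h.bet_pos
  have h4 := h.lpos
  have h5 : 0 ≤ bet m K * (Cv S U L v).card / l := by positivity
  rw [div_le_iff₀ (by linarith)]
  linarith

/-- the equalized probability -/
theorem eR_mul (h : Hyp S U L D l m K x q Lam) (v : V) :
    (1 - eR S U L l m K x v) * (1 - bet m K * (Cv S U L v).card / l) = 1 - bet m K * x / l := by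
  have h1 := h.betCv v
  have h2 : 1 - bet m K * (Cv S U L v).card / l ≠ 0 := by linarith
  unfold eR
  generalize bet m K * (Cv S U L v).card / l = c at h2 ⊢
  generalize bet m K * x / l = d
  field_simp
  ring

theorem N_small (h : Hyp S U L D l m K x q Lam) :
    1 / (m : ℝ) ^ (2 * K + 1) ≤ (1 / 2) ^ K := by
  have h1 : (2 : ℝ) ≤ m := by
    have := h.m192
    have h2 : (192 : ℝ) ≤ m := by exact_mod_cast this
    linarith
  have h3 : (2 : ℝ) ^ K ≤ (m : ℝ) ^ (2 * K + 1) := by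
    calc (2 : ℝ) ^ K ≤ (m : ℝ) ^ K := pow_le_pow_left₀ (by norm_num) h1 K
      _ ≤ (m : ℝ) ^ (2 * K + 1) := pow_le_pow_right₀ (by linarith) (by omega)
  rw [one_div_pow]
  exact one_div_le_one_div_of_le (by positivity) h3

/-- `(1 / 2) ^ K ≤ 1 / D` if `D` is positive -/
theorem half_pow (h : Hyp S U L D l m K x q Lam) : (1 / 2 : ℝ) ^ K * D ≤ 1 := by
  have h1 := h.hexp
  have h2 : Real.exp (-(K : ℝ)) ≤ Real.exp (-Lam) := Real.exp_le_exp.2 (by linarith [h.LK])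
  have hD : (0 : ℝ) ≤ D := Nat.cast_nonneg _
  have h3 : Real.exp (-(K : ℝ)) * (3 * (D : ℝ) + 2) ^ 24 ≤ 1 := by
    have h4 : (0 : ℝ) ≤ (3 * (D : ℝ) + 2) ^ 24 := by positivity
    have h5 : 0 < Real.exp (-Lam) := Real.exp_pos _
    nlinarith [mul_le_mul_of_nonneg_right h2 h4, mul_nonneg h5.le h4]
  -- `exp(-K) ≥ (1/2)^(2K)` so `((1/2)^K D)^2 ≤ 1`
  have h6 : (1 / 2 : ℝ) ^ (2 * K) ≤ Real.exp (-(K : ℝ)) := by
    have h7 : (1 / 4 : ℝ) ≤ Real.exp (-1) := by
      rw [Real.exp_neg, ← one_div]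
      apply one_div_le_one_div_of_le (Real.exp_pos _)
      linarith [Real.exp_one_lt_d9]
    calc (1 / 2 : ℝ) ^ (2 * K) = (1 / 4) ^ K := by rw [pow_mul]; norm_num
      _ ≤ Real.exp (-1) ^ K := pow_le_pow_left₀ (by norm_num) h7 K
      _ = Real.exp (-(K : ℝ)) := by rw [← Real.exp_nat_mul]; congr 1; ring
  have h8 : ((1 / 2 : ℝ) ^ K * D) ^ 2 ≤ 1 := by
    have h9 : (D : ℝ) ^ 2 ≤ (3 * (D : ℝ) + 2) ^ 24 := by
      have h10 : (1 : ℝ) ≤ 3 * (D : ℝ) + 2 := by linarith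
      calc (D : ℝ) ^ 2 ≤ (3 * (D : ℝ) + 2) ^ 2 := by gcongr; linarith
        _ ≤ (3 * (D : ℝ) + 2) ^ 24 := pow_le_pow_right₀ h10 (by norm_num)
    have h11 : (0 : ℝ) ≤ (1 / 2 : ℝ) ^ (2 * K) := by positivity
    calc ((1 / 2 : ℝ) ^ K * D) ^ 2 = (1 / 2 : ℝ) ^ (2 * K) * (D : ℝ) ^ 2 := by ring
      _ ≤ (1 / 2 : ℝ) ^ (2 * K) * (3 * (D : ℝ) + 2) ^ 24 := mul_le_mul_of_nonneg_left h9 h11
      _ ≤ Real.exp (-(K : ℝ)) * (3 * (D : ℝ) + 2) ^ 24 := by gcongr
      _ ≤ 1 := h3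
  have h12 : 0 ≤ (1 / 2 : ℝ) ^ K * D := by positivity
  nlinarith

end Hyp

end

end Pool.TCU
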