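import Pool.Agent.Helper3.TCM.LM
import Pool.Agent.Helper3.TCS.Near
import Pool.Agent.Helper3.TCS.LLL0
import Pool.Agent.Helper3.TCS.Bern
import Pool.Agent.Helper3.TCS.Mean
import Pool.Agent.Helper3.TCS.Box
import Pool.Agent.Helper3.TCT.Greedy
import Pool.Agent.Helper3.TCT.BernL
import Pool.Agent.Helper77.TCU.Trip
import Pool.Agent.Helper72.TCU.E1
import Pool.Agent.Helper12.TCU.E2
import Pool.Agent.Helper82.TCU.E3
import Pool.Agent.Helper16.TCU.E4
import Pool.Agent.Helper9.TCU.I1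
import Pool.Agent.Helper87.TCU.I2
import Pool.Agent.Helper38.TCU.C3
import Pool.Agent.Helper87.TCU.C4
import Pool.Agent.Helper13.TCU.Choice
import Pool.Agent.Helper21.TCU.Ret
import Pool.Agent.Helper49.TCU.PK
import Pool.Agent.Helper27.TCU.A1
import Pool.Agent.Helper26.TCU.Ind
import Pool.Agent.Helper90.TCU.Bad
import Pool.Agent.Helper99.TCU.M2
import Pool.Agent.Helper99.TCU.M3
import Pool.Agent.Helper44.TCU.J1
import Pool.Agent.Helper80.TCU.J2
import Pool.Agent.Helper89.TCU.J3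
import Pool.Agent.Helper75.TCU.J4
import Pool.Agent.Helper89.TCU.Acti
import Pool.Agent.Helper2.TCU.Step2
import Pool.Agent.Helper23.TCU.Iter2
import Pool.Agent.Helper80.TCU.SB
import Pool.Agent.Helper67.TCU.SLis
import Pool.Agent.Helper27.TCU.SCol
import Pool.Agent.Helper99.TCU.SPuc
import Pool.Agent.Helper11.TCU.SVp
import Pool.Agent.Helper99.TCU.SNp
import Pool.Agent.Helper12.TCU.SMon
import Pool.Agent.Helper74.TCU.SPq
import Pool.Agent.Helper49.TCU.SN3
import Pool.Agent.Helper93.TCU.SN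
import Pool.Agent.Helper20.TCU.SAs
import Pool.Agent.Helper29.TCU.M1
import Pool.Agent.Helper74.TCU.STst
import Pool.Agent.Helper38.TCU.SN1
import Pool.Agent.Helper22.TCU.SN2
import Pool.Agent.Helper47.TCU.SN4
import Pool.Agent.Helper94.TCU.Samp
import Pool.Agent.Helper91.TCU.Step3

/-!
# Sections 7 and 8 of `TC10_helper93.md`: all modules together
-/

set_option autoImplicit false

namespace Pool.TCU

open Pool.TC Pool.TCM Pool.TCS Pool.TCV

theorem all_Choice : St_Choice :=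
  thm_Choice Pool.TCS.thm_Near Pool.TCS.thm_LLL0 Pool.TCS.thm_Bern
    (thm_E1 Pool.TCS.thm_Mean thm_Trip) (thm_E2 Pool.TCS.thm_Mean) (thm_E4 Pool.TCS.thm_Mean)
    thm_I1 thm_I2 (thm_C3 Pool.TCT.thm_BernL (thm_E3 Pool.TCS.thm_Mean))
    (thm_C4 Pool.TCT.thm_BernL)

theorem all_Ret : St_Ret := thm_Ret Pool.TCS.thm_Box

theorem all_PK : St_PK := thm_PK all_Ret

theorem all_M1 : St_M1 :=
  thm_M1 all_Ret all_PK (thm_A1 Pool.TCS.thm_Box all_Ret) (thm_Ind Pool.TCS.thm_Box all_Ret)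
    thm_Bad

theorem all_Acti : St_Acti :=
  thm_Acti Pool.TCM.thm_LM Pool.TCS.thm_Near all_M1 (thm_M2 all_Ret all_PK)
    (thm_M3 all_Ret all_PK) (thm_M4 all_Ret all_PK) thm_J1 thm_J2 thm_J3 thm_J4

theorem all_Step2 : St_Step2 := thm_Step2 all_Choice all_Acti

theorem all_Samp : St_Samp := thm_Samp Pool.TCT.thm_BernL Pool.TCS.thm_LLL0

theorem all_Iter2 : St_Iter2 := thm_Iter2 Pool.TCS.thm_Near all_Step2 all_Samp

theorem all_Step3 : St_Step3 := thm_Step3 all_Step2 Pool.TCT.thm_Greedy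

theorem all_SB : St_SB := thm_SB all_Step3 all_Iter2

/-- section 8, without hypotheses -/
theorem all_S10 : St_S10 :=
  thm_SAs thm_SLis thm_SCol thm_SPuc (thm_SPq thm_SPuc (thm_SNp thm_SVp) thm_SMon) thm_STst
    (thm_SN thm_SN1 thm_SN2 thm_SN3 thm_SN4) all_SB

end Pool.TCU
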