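import Pool.Agent.Helper3.TCT.Defs

/-!
# One step with exact equalization and linear tests

Definitions for section 7 of the paper proof `TC10_helper93.md`. The structure `CS`, the sets `Cv`,
`Pn`, `KP`, `KR`, the labels and the events `actv`, `goodv`, `retv`, `bkv` are those of `Pool.TCS`.
New: the equalizing probability `q u a` depends on the option, the option `(u, a)` is killed with
the probability `eS` which depends on the choice `o`, and linear tests.
-/

set_option autoImplicit false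

namespace Pool.TCU

open Pool.TC Pool.TCM Pool.TCS Finset
open scoped Classical

section defs

variable {V κ : Type} [Fintype V] [Fintype κ]

/-- the relative error of one step -/
noncomputable def Er (K : ℕ) (Lam l : ℝ) : ℝ :=
  2 ^ 18 * (1 / 2) ^ K + 128 * (K : ℝ) ^ 2 * Real.sqrt (Lam / l)

/-- the bound for the probability that the option `a` at `u` is killed by a neighbour -/
noncomputable def pq (S : CS V κ) (U : Finset V) (L : V → Finset κ) (l m K : ℕ) (u : V) (a : κ) :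
    ℝ := bet m K * (Pn S U L u a).card / l -
      bet m K ^ 2 / 2 * npair S (Pn S U L u a) / (l : ℝ) ^ 2

/-- the equalizing probability of the option `a` at `u` -/
noncomputable def fK (S : CS V κ) (U : Finset V) (L : V → Finset κ) (l m K : ℕ) (q : V → κ → ℝ)
    (u : V) (a : κ) : ℝ := (q u a - pq S U L l m K u a) / (1 - pq S U L l m K u a)

/-- The hypotheses of one step. -/
structure Hyp (S : CS V κ) (U : Finset V) (L : V → Finset κ) (D l m K : ℕ) (x : ℝ)
    (q : V → κ → ℝ) (Lam : ℝ) : Prop where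
  deg : ∀ u, (univ.filter (fun v => S.adj u v)).card ≤ D
  col : Fintype.card κ ≤ D
  card : ∀ u ∈ U, (L u).card = l
  inj2 : ∀ u ∈ U, ∀ a ∈ L u, ∀ a' ∈ L u, S.r u a = S.r u a' → a = a'
  hC : ∀ v, ((Cv S U L v).card : ℝ) ≤ x
  hP : ∀ u ∈ U, ∀ a ∈ L u, ((Pn S U L u a).card : ℝ) ≤ 2 * l
  hq : ∀ u ∈ U, ∀ a ∈ L u, pq S U L l m K u a ≤ q u a
  q0 : ∀ u a, 0 ≤ q u a
  q1 : ∀ u a, q u a ≤ 1 / 2
  l0 : 0 < l
  x0 : 0 ≤ x
  x1 : x ≤ 2 * l
  mK : 8 * K ≤ m
  K24 : 24 ≤ K
  L1 : 1 ≤ Lam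
  LK : Lam ≤ K
  Ll : Lam ≤ l
  hexp : 4 * Real.exp (-Lam) * ((3 * (D : ℝ) + 2) ^ 24 + 1) ≤ 1

/-! ### Tests -/

/-- A family of local tests `T j` with centres `ctr j` and weights at most `μ j`. -/
structure Tst (S : CS V κ) (D : ℕ) {J : Type} [Fintype J] (ctr : J → V) (T : J → V → κ → ℝ)
    (μ : J → ℝ) : Prop where
  nn : ∀ j w b, 0 ≤ T j w b
  le : ∀ j w b, T j w b ≤ μ j
  pos : ∀ j, 0 ≤ μ j
  loc : ∀ j w b, T j w b ≠ 0 → near S 3 (ctr j) w
  mul : ∀ v, (univ.filter (fun j => ctr j = v)).card ≤ D ^ 5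

/-- the total weight of a test -/
noncomputable def nm (U : Finset V) (L : V → Finset κ) (T : V → κ → ℝ) : ℝ :=
  ∑ w ∈ U, ∑ b ∈ L w, T w b

/-- row sums -/
noncomputable def rs (L : V → Finset κ) (T : V → κ → ℝ) (w : V) : ℝ := ∑ b ∈ L w, T w b

/-- sums over the options which use a given right vertex -/
noncomputable def cs (S : CS V κ) (U : Finset V) (L : V → Finset κ) (T : V → κ → ℝ) (v : V) : ℝ :=
  ∑ p ∈ Cv S U L v, T p.1 p.2

/-- the sum of the squares of the row sums and of the column sums -/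
noncomputable def sq (S : CS V κ) (U : Finset V) (L : V → Finset κ) (T : V → κ → ℝ) : ℝ :=
  (∑ w ∈ U, rs L T w ^ 2) + ∑ v, cs S U L T v ^ 2

/-! ### The choice -/

/-- `1 - β kP + β² npP / 2` -/
noncomputable def Ss (S : CS V κ) (U : Finset V) (m K : ℕ) (o : V → κ) (u : V) (a : κ) : ℝ :=
  1 - bet m K * (KP S U o u a).card + bet m K ^ 2 / 2 * npair S (KP S U o u a)

/-- lower estimate of the probability that the option survives -/
noncomputable def Psi1 (S : CS V κ) (U : Finset V) (L : V → Finset κ) (l m K : ℕ) (x : ℝ)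
    (q : V → κ → ℝ) (o : V → κ) (u : V) (a : κ) : ℝ :=
  (1 - bet m K * ((KP S U o u a).card + (KR S U o u (S.r u a)).card) +
    bet m K ^ 2 * min (npair S (KP S U o u a) / 2 +
      (KP S U o u a).card * (KR S U o u (S.r u a)).card) (2 * (K : ℝ) ^ 2) -
    bet m K ^ 3 / 2 * min ((KR S U o u (S.r u a)).card * npair S (KP S U o u a))
      (2 * (K : ℝ) ^ 3)) *
  (1 - eR S U L l m K x (S.r u a)) * (1 - fK S U L l m K q u a)

/-- upper estimate of the probability that `w` is not coloured and that its option `b` is not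
killed by a neighbour -/
noncomputable def Psi2 (S : CS V κ) (U : Finset V) (L : V → Finset κ) (l m K : ℕ)
    (q : V → κ → ℝ) (o : V → κ) (w : V) (b : κ) : ℝ :=
  (1 - bet m K) * (1 - bet m K * (KP S U o w b).card +
    bet m K ^ 2 / 2 * min (npair S (KP S U o w b)) (2 * (K : ℝ) ^ 2)) *
  (1 - fK S U L l m K q w b)

/-- upper estimate of the probability that `w` is not coloured and that the right vertex of its
option `a` is not used by another vertex -/
noncomputable def Psi3 (S : CS V κ) (U : Finset V) (L : V → Finset κ) (l m K : ℕ) (x : ℝ)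
    (q : V → κ → ℝ) (o : V → κ) (w : V) (a : κ) : ℝ :=
  (1 - bet m K) * (1 - bet m K * (KR S U o w (S.r w a)).card) *
  (1 - eR S U L l m K x (S.r w a)) * (1 - fK S U L l m K q w a)

/-- the mean of `Psi3` without the error term -/
noncomputable def Mt (S : CS V κ) (U : Finset V) (L : V → Finset κ) (l m K : ℕ) (x : ℝ)
    (q : V → κ → ℝ) (w : V) (b : κ) : ℝ :=
  (1 - bet m K) * (1 - fK S U L l m K q w b) * (1 - bet m K * x / l)

/-- a choice of options with small multiplicities -/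
structure Cho (S : CS V κ) (U : Finset V) (L : V → Finset κ) (K : ℕ) (o : V → κ) : Prop where
  mem : ∀ u ∈ U, o u ∈ L u
  kP : ∀ u ∈ U, ∀ a ∈ L u, (KP S U o u a).card ≤ K
  kR : ∀ v, (univ.filter (fun w => w ∈ U ∧ S.r w (o w) = v)).card ≤ K

/-- the properties of a good choice; `M` is an arbitrary family of sets of options -/
structure Good {J : Type} [Fintype J] (S : CS V κ) (U : Finset V) (L M : V → Finset κ)
    (l m K : ℕ) (x : ℝ) (q : V → κ → ℝ) (Lam : ℝ) (T : J → V → κ → ℝ) (μ : J → ℝ) (o : V → κ) :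
    Prop where
  cho : Cho S U L K o
  c1 : ∀ u ∈ U, (∑ a ∈ L u ∩ M u, (1 - q u a) * (1 - bet m K * x / l)) -
    2 ^ 18 * (1 / 4) ^ K * l - 2 - 24 * Real.sqrt (l * Lam) ≤
      ∑ a ∈ L u ∩ M u, Psi1 S U L l m K x q o u a
  c2 : ∀ v, ∑ p ∈ Cv S U L v, Psi2 S U L l m K q o p.1 p.2 ≤
    (∑ p ∈ Cv S U L v, (1 - bet m K) * (1 - q p.1 p.2)) + 24 * Real.sqrt (l * Lam)
  c3 : ∀ j, ∑ w ∈ U, ∑ b ∈ L w, T j w b * Psi3 S U L l m K x q o w b ≤
    (∑ w ∈ U, ∑ b ∈ L w, T j w b * Mt S U L l m K x q w b) + 2 * nm U L (T j) / l +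
      Real.sqrt (sq S U L (T j) * Lam)
  c4 : ∀ j, ∑ w ∈ U, T j w (o w) ≤ nm U L (T j) / l +
    3 * Real.sqrt ((μ j * nm U L (T j) / l + Lam * μ j ^ 2) * Lam)

/-- The function `F` of the choice changes by at most `4` with one coordinate; only the letters in
`R w` of the coordinate `w` matter. -/
structure Infl (S : CS V κ) (l : ℕ) (u : V) (F : (V → Fin l) → ℝ) (R : V → Finset (Fin l)) :
    Prop where
  bd : ∀ w (ω ω' : V → Fin l), (∀ t, t ≠ w → ω t = ω' t) → |F ω - F ω'| ≤ 4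
  eq : ∀ w (ω ω' : V → Fin l), (∀ t, t ≠ w → ω t = ω' t) → ω w ∉ R w → ω' w ∉ R w → F ω = F ω'
  sum : (∑ w, ((R w).card : ℝ)) ≤ 4 * (l : ℝ) * l
  loc : ∀ w, (R w).Nonempty → near S 3 u w

/-! ### The activation -/

/-- no neighbour which has chosen `a` keeps its choice -/
def nP (S : CS V κ) (U : Finset V) (o : V → κ) (m K : ℕ)
    (ω : Lab V κ → Fin (m ^ (2 * K + 1))) (u : V) (a : κ) : Prop :=
  ∀ w ∈ KP S U o u a, ¬ retv S U o m K ω w

/-- no other vertex which has chosen the right vertex of the option keeps its choice -/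
def nR (S : CS V κ) (U : Finset V) (o : V → κ) (m K : ℕ)
    (ω : Lab V κ → Fin (m ^ (2 * K + 1))) (u : V) (a : κ) : Prop :=
  ∀ w ∈ KR S U o u (S.r u a), ¬ retv S U o m K ω w

/-- `P(nP)` -/
noncomputable def A0 (S : CS V κ) (U : Finset V) (o : V → κ) (m K : ℕ) (u : V) (a : κ) : ℝ :=
  mean (fun ω => if nP S U o m K ω u a then (1 : ℝ) else 0)

/-- `P(nP, nR)` -/
noncomputable def A1 (S : CS V κ) (U : Finset V) (o : V → κ) (m K : ℕ) (u : V) (a : κ) : ℝ :=
  mean (fun ω => if nP S U o m K ω u a ∧ nR S U o m K ω u a then (1 : ℝ) else 0)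

/-- `P(u` not retained, `nP)` -/
noncomputable def A2 (S : CS V κ) (U : Finset V) (o : V → κ) (m K : ℕ) (u : V) (a : κ) : ℝ :=
  mean (fun ω => if ¬ retv S U o m K ω u ∧ nP S U o m K ω u a then (1 : ℝ) else 0)

/-- `P(u` not retained, `nR)` -/
noncomputable def A3 (S : CS V κ) (U : Finset V) (o : V → κ) (m K : ℕ) (u : V) (a : κ) : ℝ :=
  mean (fun ω => if ¬ retv S U o m K ω u ∧ nR S U o m K ω u a then (1 : ℝ) else 0)

/-- the probability that the option is not killed by its label -/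
noncomputable def gS (S : CS V κ) (U : Finset V) (L : V → Finset κ) (l m K : ℕ)
    (q : V → κ → ℝ) (o : V → κ) (u : V) (a : κ) : ℝ :=
  (1 - fK S U L l m K q u a) * min 1 ((1 - bet m K) * Ss S U m K o u a / A2 S U o m K u a) *
    min 1 ((1 - bet m K) * (1 - bet m K * (KR S U o u (S.r u a)).card) / A3 S U o m K u a)

/-- the option `a` at `u` is killed by its label -/
def ekv (S : CS V κ) (U : Finset V) (L : V → Finset κ) (l m K : ℕ) (q : V → κ → ℝ) (o : V → κ)
    (ω : Lab V κ → Fin (m ^ (2 * K + 1))) (u : V) (a : κ) : Prop :=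
  (ω (Sum.inr (Sum.inr (u, a)))).val < ⌊(1 - gS S U L l m K q o u a) * (m : ℝ) ^ (2 * K + 1)⌋₊

/-- the option `a` at `u` survives -/
def alive (S : CS V κ) (U : Finset V) (L : V → Finset κ) (l m K : ℕ) (x : ℝ) (q : V → κ → ℝ)
    (o : V → κ) (ω : Lab V κ → Fin (m ^ (2 * K + 1))) (u : V) (a : κ) : Prop :=
  nP S U o m K ω u a ∧ nR S U o m K ω u a ∧
  ¬ bkv S U L l m K x ω (S.r u a) ∧ ¬ ekv S U L l m K q o ω u a

/-- the conflict ball of radius two around `u` -/
noncomputable def cb (S : CS V κ) (U : Finset V) (o : V → κ) (u : V) : Finset V :=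
  univ.filter (fun w => w ∈ U ∧ (conf S o u w ∨ ∃ v ∈ U, conf S o u v ∧ conf S o v w))

/-- bad options: the choices which can kill the option are too near -/
def Bad (S : CS V κ) (U : Finset V) (o : V → κ) (u : V) (a : κ) : Prop :=
  ∃ w ∈ cb S U o u, w ∈ KP S U o u a ∨ w ∈ KR S U o u (S.r u a)

/-- number of surviving options of `u` in `M u` -/
noncomputable def G1 (S : CS V κ) (U : Finset V) (L M : V → Finset κ) (l m K : ℕ) (x : ℝ)
    (q : V → κ → ℝ) (o : V → κ) (u : V) (ω : Lab V κ → Fin (m ^ (2 * K + 1))) : ℝ :=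
  ((L u ∩ M u).filter (fun a => alive S U L l m K x q o ω u a)).card

/-- number of options which use `v` and survive, if `v` is not used -/
noncomputable def G2 (S : CS V κ) (U : Finset V) (L : V → Finset κ) (l m K : ℕ)
    (q : V → κ → ℝ) (o : V → κ) (v : V) (ω : Lab V κ → Fin (m ^ (2 * K + 1))) : ℝ :=
  ((Cv S U L v).filter (fun p => ¬ retv S U o m K ω p.1 ∧ nP S U o m K ω p.1 p.2 ∧
    ¬ ekv S U L l m K q o ω p.1 p.2)).card

/-- upper bound for the remaining weight of a test -/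
noncomputable def G3 (S : CS V κ) (U : Finset V) (L : V → Finset κ) (l m K : ℕ) (x : ℝ)
    (q : V → κ → ℝ) (o : V → κ) (T : V → κ → ℝ) (ω : Lab V κ → Fin (m ^ (2 * K + 1))) : ℝ :=
  ∑ w ∈ U, ∑ b ∈ L w, if ¬ retv S U o m K ω w ∧ nR S U o m K ω w b ∧
    ¬ bkv S U L l m K x ω (S.r w b) ∧ ¬ ekv S U L l m K q o ω w b then T w b else 0

/-- the weight of the retained options -/
noncomputable def G4 (S : CS V κ) (U : Finset V) (m K : ℕ) (o : V → κ) (T : V → κ → ℝ)
    (ω : Lab V κ → Fin (m ^ (2 * K + 1))) : ℝ :=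
  ∑ w ∈ U, if retv S U o m K ω w then T w (o w) else 0

/-- bounded differences for a function of the labels -/
structure Dif (S : CS V κ) (m K : ℕ) (u : V) (W : ℝ) (F : (Lab V κ → Fin (m ^ (2 * K + 1))) → ℝ)
    (cc : Lab V κ → ℝ) : Prop where
  nn : ∀ t, 0 ≤ cc t
  bd : ∀ t (ω ω' : Lab V κ → Fin (m ^ (2 * K + 1))), (∀ t', t' ≠ t → ω t' = ω' t') →
    |F ω - F ω'| ≤ cc t
  sum : (∑ t, cc t ^ 2) ≤ W
  loc : ∀ t, cc t ≠ 0 → near S 8 u (pos t)

end defs

end Pool.TCU
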