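import Pool.Agent.Helper93.TCU.SStmt3

/-!
# The numbers of the S-stage: assembly
-/

set_option autoImplicit false

namespace Pool.TCU

open Pool.TC Pool.TCM Pool.TCS Pool.TCV Finset
open scoped Classical

theorem thm_SN (h1 : St_SN1) (h2 : St_SN2) (h3 : St_SN3) (h4 : St_SN4) : St_SN := by
  intro P j0 ell x hN hj hell hx
  have F := h1 P j0 ell x hN hj hell hx
  obtain ⟨a1, a2, a3, a4, a5⟩ := h2 P ell x hN F
  obtain ⟨b1, b2, b3, b4, b5, b6⟩ := h3 P ell x hN F a4
  have c1 := h4 P ell x hN F a4 b2 b6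
  have hX := F.X0
  have hX1 : (1 : ℝ) ≤ P.X := le_trans (by norm_num) hX
  have hX0 : (0 : ℝ) < P.X := by linarith
  have hp : ∀ k : ℕ, (0 : ℝ) < (P.X : ℝ) ^ k := fun k => pow_pos hX0 k
  have hp1 : ∀ k : ℕ, (1 : ℝ) ≤ (P.X : ℝ) ^ k := fun k => one_le_pow₀ hX1
  have hmono : ∀ j k : ℕ, j ≤ k → (P.X : ℝ) ^ j ≤ (P.X : ℝ) ^ k :=
    fun j k h => pow_le_pow_right₀ hX1 h
  have hD : (0 : ℝ) < P.D := lt_of_lt_of_le (hp 4000000) F.D1
  have hDX4 : (P.X : ℝ) ^ 4 ≤ P.D := le_trans (hmono 4 4000000 (by norm_num)) F.D1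
  have hellR : (1 : ℝ) < ell := by
    have h5 := F.l1
    have h6 : (P.X : ℝ) ≤ (P.X : ℝ) ^ 4 := by
      have := hmono 1 4 (by norm_num)
      simpa using this
    have h7 : (10 : ℝ) ^ 20 ≤ 21 / 10 * ell := le_trans hX (le_trans h6 (le_trans hDX4 h5))
    norm_num at h7
    linarith
  have hell0 : 0 < ell := by
    have : (0 : ℝ) < ell := by linarith
    exact_mod_cast this
  have hnz0 : 0 ≤ P.nz := by
    rw [hN.nz]
    exact mul_nonneg (hp 10).le (Real.sqrt_nonneg _)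
  have hnz : 7 * P.nz ≤ ell := by
    have h5 := F.nz1
    have h6 := F.l1
    have h7 : (P.X : ℝ) ≤ (P.X : ℝ) ^ 1000000 := by
      have := hmono 1 1000000 (by norm_num)
      rw [pow_one] at this
      exact this
    have h8 : (100 : ℝ) ≤ P.X := le_trans (by norm_num) hX
    have h9 : P.nz * 100 ≤ P.nz * (P.X : ℝ) ^ 1000000 :=
      mul_le_mul_of_nonneg_left (le_trans h8 h7) hnz0
    linarith
  have hLam : P.Lam = (P.X : ℝ) ^ 3 := hN.Lam
  have hkn : (P.kn : ℝ) = (P.X : ℝ) ^ 3 := by rw [hN.kn]; push_cast; ring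
  have hb0 : 0 < sb P := lt_of_lt_of_le (by have := hp 3; positivity) F.b1
  have hb1 : sb P ≤ 1 := by
    refine le_trans F.b2 ?_
    rw [div_le_one (by have := hp 3; positivity)]
    have := hp1 3
    linarith
  have hdel : P.delta = 1 / (P.X : ℝ) ^ 4900 := hN.delta
  have hd0 : 0 < P.delta := by rw [hdel]; have := hp 4900; positivity
  have hd1 : P.delta ≤ 1 := by
    rw [hdel, div_le_one (hp 4900)]; exact hp1 4900
  have heta : P.eta = 1 / (P.X : ℝ) ^ 1600 := hN.eta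
  have he0 : 0 < P.eta := by rw [heta]; have := hp 1600; positivity
  have he1 : P.eta ≤ 1 := by
    rw [heta, div_le_one (hp 1600)]; exact hp1 1600
  have hth0 : 0 < P.thp := by
    have h5 := F.th1
    have h6 : 0 < 1 / (P.X : ℝ) ^ 4912 := by have := hp 4912; positivity
    linarith
  have hth1 : P.thp ≤ 1 / 320 := by
    refine le_trans F.th3 ?_
    have h5 : sb P ^ 2 * P.delta ≤ 1 * 1 :=
      mul_le_mul (pow_le_one₀ hb0.le hb1) hd1 hd0.le (by norm_num)
    linarith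
  -- `xi`
  have hxi : P.xi = 206000 * (P.X : ℝ) ^ 17 * P.delta := by
    rw [hN.xi, hN.pmax, hN.theta, hLam]
    have := (hp 14).ne'
    field_simp
    ring
  have hxi0 : 0 < P.xi := by rw [hxi]; have := hp 17; positivity
  have hbig : (206000 * 220 : ℝ) ≤ (P.X : ℝ) := le_trans (by norm_num) hX
  have hxk : 220 * (P.X : ℝ) ^ 3 * P.xi ≤ P.eta := by
    rw [hxi, hdel, heta]
    have e1 : 220 * (P.X : ℝ) ^ 3 * (206000 * (P.X : ℝ) ^ 17 * (1 / (P.X : ℝ) ^ 4900)) =
        (206000 * 220) * (P.X : ℝ) ^ 20 / (P.X : ℝ) ^ 4900 := by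
      field_simp
    rw [e1, div_le_div_iff₀ (hp 4900) (hp 1600), one_mul]
    calc (206000 * 220) * (P.X : ℝ) ^ 20 * (P.X : ℝ) ^ 1600
        ≤ (P.X : ℝ) * (P.X : ℝ) ^ 20 * (P.X : ℝ) ^ 1600 := by
          have := hp 20; have := hp 1600; gcongr
      _ = (P.X : ℝ) ^ 1621 := by ring
      _ ≤ (P.X : ℝ) ^ 4900 := hmono 1621 4900 (by norm_num)
  have hk1 : sk1 P ≤ P.eta := by
    refine le_trans ?_ hxk
    unfold sk1
    rw [div_le_iff₀ hb0]
    have h5 := F.b1
    have h6 : 20 * P.xi = 220 * (P.X : ℝ) ^ 3 * P.xi * (1 / (11 * (P.X : ℝ) ^ 3)) := by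
      have := (hp 3).ne'
      field_simp
      ring
    rw [h6]
    have := hp 3
    exact mul_le_mul_of_nonneg_left h5 (by positivity)
  have hxi1 : P.xi ≤ 1 / 100 := by
    have h5 : 220 * P.xi ≤ 220 * (P.X : ℝ) ^ 3 * P.xi := by
      have h6 := hp1 3
      have h7 : 220 * P.xi * 1 ≤ 220 * P.xi * (P.X : ℝ) ^ 3 :=
        mul_le_mul_of_nonneg_left h6 (by positivity)
      linarith
    linarith
  have hsk0 : 0 < sk1 P := div_pos (by positivity) hb0
  have hbk : sb P * sk1 P = 20 * P.xi := by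
    unfold sk1
    field_simp
  have hdx : P.delta ≤ 20 * P.xi := by
    rw [hxi]
    have h5 := hp1 17
    have h6 : P.delta * 1 ≤ P.delta * (P.X : ℝ) ^ 17 := mul_le_mul_of_nonneg_left h5 hd0.le
    nlinarith [hd0, hp 17]
  have hkd : sb P * P.delta ≤ sk1 P := by
    have h5 : sb P * P.delta ≤ 1 * P.delta := mul_le_mul_of_nonneg_right hb1 hd0.le
    have h6 : 20 * P.xi ≤ sk1 P := by
      rw [← hbk]
      have : sb P * sk1 P ≤ 1 * sk1 P := mul_le_mul_of_nonneg_right hb1 hsk0.le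
      linarith
    linarith
  have hthe : 20 * P.thp ≤ sb P * P.eta ^ 2 := by
    have h5 := F.th3
    have h6 : P.delta ≤ P.eta ^ 2 := by
      rw [hdel, heta, div_pow, one_pow, ← pow_mul]
      exact one_div_le_one_div_of_le (hp _) (hmono _ _ (by norm_num))
    have h7 : sb P ^ 2 * P.delta ≤ sb P * P.eta ^ 2 := by
      have h8 : sb P ^ 2 ≤ sb P := by
        rw [pow_two]
        have := mul_le_mul_of_nonneg_right hb1 hb0.le
        linarith
      exact mul_le_mul h8 h6 hd0.le hb0.le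
    have h9 : 0 ≤ sb P ^ 2 * P.delta := by positivity
    linarith
  have hLamK : P.Lam ≤ P.kn := by rw [hLam, hkn]
  have hL1 : 1 ≤ P.Lam := by rw [hLam]; exact hp1 3
  refine ⟨sell1 P ell x, sn P, sL0 P, ?_, c1, a5⟩
  constructor
  · exact F.hexp
  · exact hell0
  · have h5 := F.l2
    have h6 : (ell : ℝ) ≤ ((2 * P.D : ℕ) : ℝ) := by push_cast; linarith
    exact_mod_cast h6
  · have := F.x1; linarith
  · have := F.x2; linarith
  · have h5 : (24 : ℝ) ≤ P.kn := by
      rw [hkn]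
      have h6 : (P.X : ℝ) ≤ (P.X : ℝ) ^ 3 := by
        have := hmono 1 3 (by norm_num)
        simpa using this
      exact le_trans (le_trans (by norm_num) hX) h6
    exact_mod_cast h5
  · exact hL1
  · exact hLamK
  · rw [hLam]
    have h5 := F.l1
    have h6 : (P.X : ℝ) ^ 4 = P.X * (P.X : ℝ) ^ 3 := by ring
    have h7 : 3 * (P.X : ℝ) ^ 3 ≤ P.X * (P.X : ℝ) ^ 3 := by
      have : (3 : ℝ) ≤ P.X := le_trans (by norm_num) hX
      exact mul_le_mul_of_nonneg_right this (hp 3).le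
    have h8 := hp 3
    linarith
  · exact hd0
  · exact hd1
  · exact hth0
  · linarith
  · exact hxi0.le
  · exact hxi1
  · exact hsk0
  · exact hbk.ge
  · exact hkd
  · exact hk1
  · exact he1
  · exact hthe
  · positivity
  · positivity
  · exact a1
  · exact a2
  · exact a3
  · positivity
  · linarith
  · have h5 : (0 : ℝ) < sL0 P := by linarith
    exact_mod_cast h5
  · exact b1
  · exact b3
  · exact b4
  · exact b5

end Pool.TCU
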