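import Pool.Agent.Helper93.TCU.SStmts
import Pool.Agent.Helper3.TCV.Defs

/-!
# The S-stage for the graph (section 8 of `TC10_helper93.md`)

Interface: `Pool.TCV` (`Pool/Agent/Helper3/TCV/Defs.lean`). The goal is `TCV.St_S10`.
-/

set_option autoImplicit false

namespace Pool.TCU

open Pool.TC Pool.TCM Pool.TCS Pool.TCV Finset
open scoped Classical

section defs

variable {V κ : Type} [Fintype V] [Fintype κ]

/-- the conflict structure of the S-stage -/
noncomputable def sCS (P : Par) (t : Td V κ) : CS V κ where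
  adj := t.adj' P
  r := fun u a => t.E.N a u
  symm := by
    intro u v h
    rcases h with h | ⟨h1, h2, h3, i, h4, h5⟩
    · exact Or.inl h.symm
    · exact Or.inr ⟨h1.symm, h3, h2, i, h5, h4⟩
  irr := by
    intro u h
    rcases h with h | h
    · exact t.G.loopless.irrefl u h
    · exact h.1 rfl
  inj := by
    intro u u' a h
    have h1 := congrArg (t.E.N a) h
    rwa [t.E.inv, t.E.inv] at h1

/-- the rows of the S-stage -/
noncomputable def sU (t : Td V κ) : Finset V := univ.filter (fun u => t.U u)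

/-- the options of the S-stage -/
noncomputable def sO (t : Td V κ) (X : V → Prop) (cX : V → κ) (u : V) : Finset κ :=
  univ.filter (fun a => a ∉ t.J0 ∧ t.cr u a ∧ ¬ colX t X cX (t.E.N a u) ∧
    ∀ w, X w → t.G.Adj u w → cX w ≠ a)

/-- `β` -/
noncomputable def sb (P : Par) : ℝ := bet (8 * P.kn) P.kn

/-- the length of the lists -/
noncomputable def sl (P : Par) (t : Td V κ) : ℕ :=
  ⌊((P.D : ℝ) + 1 - t.J0.card) / 2 - 4 * P.nz⌋₊

/-- the bound for the columns -/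
noncomputable def sx (P : Par) (t : Td V κ) : ℝ := ((P.D : ℝ) + 1 - t.J0.card) / 2 + 2 * P.nz

/-- the fraction of the neighbours in the clusters -/
noncomputable def skap (P : Par) (t : Td V κ) (u : V) : ℝ := (t.dKU u : ℝ) / P.D

/-- heavy rows -/
def shh (P : Par) (t : Td V κ) (u : V) : Prop := t.K u = none ∧ ¬ t.A P u

/-- cells whose right vertex is in a cluster -/
def skt (t : Td V κ) (u : V) (a : κ) : Prop := t.K (t.E.N a u) ≠ none

/-- `k1` -/
noncomputable def sk1 (P : Par) : ℝ := 20 * P.xi / sb P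

/-- the tests (Q1), (Q2), (Q3) -/
noncomputable def sT (P : Par) (t : Td V κ) : V ⊕ V ⊕ (V × κ) → V → κ → ℝ
  | Sum.inl i => fun w b => if t.K w = none ∧ t.K (t.E.N b w) = some i then 1 else 0
  | Sum.inr (Sum.inl i) => fun w b => if t.K w = none ∧
      ∃ y, t.K y = some i ∧ t.F0 y ∧ t.G.Adj w y ∧ t.m y = b then 1 else 0
  | Sum.inr (Sum.inr p) => fun w b => if t.K w = none ∧ ¬ t.hv P p.1 w ∧ b = p.2
      then (t.dk p.1 w : ℝ) else 0

/-- the centres of the tests -/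
def sctr : V ⊕ V ⊕ (V × κ) → V
  | Sum.inl i => i
  | Sum.inr (Sum.inl i) => i
  | Sum.inr (Sum.inr p) => p.1

end defs

/-- SLIS (file `SLis.lean`). The lists: a subset of `sO u` of size `min |sO u| ell` which contains as many options
with `skt` as possible. PROOF. (S1) and `x6`, `x6'` (the options of `u` which are not in `sO u` because of `X` are given
by the `w ∈ N(u)`, `X w`, and by the `v ∈ N(u)` in `colX`; for a crossing cell `E.N a u` is a neighbour of `u` and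
determines `a` by `E.uniq`): `|sO u| ≥ (D+1-|J0|)/2 - nz - 2 (xi dKU + nz) ≥ ell - 2 xi dKU`, and `ell ≥ D / (2.1)`.
For `typ`: the number of `skt` options in `sO u` is at least `(dKU - |J0|)/2 - nz - 2 (xi dKU + nz) ≥ 0.45 dKU` if
`k1 D ≤ dKU` (`|J0| ≤ 2 ^ (-r) (D+1)`, `Num10`), and `0.45 dKU ≥ 0.9 kap ell` as `ell ≤ D / 2`. If there are at least `ell`
options with `skt` the list consists only of those and `ell ≥ 0.9 kap ell`. -/
def St_SLis : Prop := ∀ (P : Par) (V κ : Type) [Fintype V] [Fintype κ] (t : Td V κ)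
  (X : V → Prop) (cX : V → κ), Num10 P → Bse P t → XP P t X cX →
  ∃ L : V → Finset κ, (∀ u ∈ sU t, L u ⊆ sO t X cX u) ∧ (∀ u ∈ sU t, (L u).card ≤ sl P t) ∧
    (∀ u ∈ sU t, dd L (sl P t) u ≤ 21 / 5 * P.xi * skap P t u) ∧
    (∀ u ∈ sU t, sk1 P ≤ skap P t u →
      9 / 10 * skap P t u * sl P t ≤ ((L u).filter (fun a => skt t u a)).card)

/-- SCOL (file `SCol.lean`). The columns. PROOF. `(w, a) ∈ Cv v` means `w = E.N a v ∈ U`, `a ∉ J0`, crossing; so
`|Cv v| ≤ s2-set + s2'-set ≤ (cj1 + cj2)/2 + 2 nz ≤ sx`. If `K v ≠ none` then `w ↦ (w, a)` is determined by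
`w ∈ N(v)`, `K w = none ≠ K v`: `|Cv v| ≤ oo v ≤ D/99`. If `K v = none` then `K (E.N a w) = K v = none` and
`c1 ≤ cj1 / 2 + nz`, `c2 ≤ cj2 / 2 + nz`, with (F2) (`cj2 ≤ cj (¬ A)`):
`c1 + (1 - 2 thp) c2 ≤ (cj1 + (1 - thp) cj2) / 2 + 2 nz ≤ (1 - thp)(D + 1 - |J0|)/2 + 3 nz ≤ (1 - thp) ell + 8 nz`. -/
def St_SCol : Prop := ∀ (P : Par) (V κ : Type) [Fintype V] [Fintype κ] (t : Td V κ)
  (X : V → Prop) (cX : V → κ) (L : V → Finset κ), Num10 P → Bse P t → XP P t X cX →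
  (∀ u ∈ sU t, L u ⊆ sO t X cX u) →
  (∀ v, ((Cv (sCS P t) (sU t) L v).card : ℝ) ≤ sx P t) ∧
  (∀ v, 99 * (Cv (sCS P t) (sU t) L v).card ≤ P.D ∨
    ((∀ p ∈ Cv (sCS P t) (sU t) L v, ¬ skt t p.1 p.2) ∧
      (((Cv (sCS P t) (sU t) L v).filter (fun p => ¬ shh P t p.1)).card : ℝ) +
      (1 - 2 * P.thp) * ((Cv (sCS P t) (sU t) L v).filter (fun p => shh P t p.1)).card ≤
        (1 - P.thp) * sl P t + 8 * P.nz))

/-- SPUC (file `SPuc.lean`). PROOF. The rows `w ∈ PU u a` are in `S`; those adjacent to `u` in `G` are at most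
`D - dKU u` (`reg`), the others are virtual neighbours: none if `A u`; at most `(1/eta) (103 delta D/eta)` otherwise
(`hv1`, `hv2`). The second part: the degree in `adj'`. -/
def St_SPuc : Prop := ∀ (P : Par) (V κ : Type) [Fintype V] [Fintype κ] (t : Td V κ),
  Num10 P → Bse P t →
  (∀ u a, t.K u = none → ((t.PU P u a).card : ℝ) ≤ P.D - t.dKU u +
    (if t.A P u then 0 else 103 * P.delta * P.D / P.eta ^ 2)) ∧
  (∀ u, (univ.filter (fun v => t.adj' P u v)).card ≤ 2 * P.D)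

/-- SVP (file `SVp.lean`). Virtual pairs in `N(u)`. PROOF. Let `u` be light with `dKU u ≤ delta D / 4`, and `H` = the
heavy rows in `N(u)` (`K w = none`, `¬ A w`). The number of virtual pairs in `N(u)` is at most `|H| 103 delta D/eta ^ 2`
(both ends are heavy, degree as in SPUC). For `w ∈ H`: `dKU w ≥ eta D` (`hvk`) and at most `dKU u ≤ eta D/4` of these
neighbours are in `N(u)`, so `w` has at least `3/4 eta D - 1` neighbours outside of `N[u]`, hence (both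
closed neighbourhoods have `D + 1` elements) at least `3/4 eta D - 1` non-neighbours `≠ w` in `N(u)`.
So `npr u ≥ |H| eta D / 2`, and `100 * 103 delta D/eta^2 ≤ eta D / 2`. -/
def St_SVp : Prop := ∀ (P : Par) (V κ : Type) [Fintype V] [Fintype κ] (t : Td V κ),
  Num10 P → Bse P t → ∀ u, t.A P u → 4 * (t.dKU u : ℝ) ≤ P.delta * P.D →
  100 * ((nb t.G u ×ˢ nb t.G u).filter (fun p => t.vir P p.1 p.2)).card ≤ Pool.TN.npr t.G u

/-- SNP (file `SNp.lean`). PROOF. From SVP: the ordered pairs of different vertices of `N(u)` which are not adjacent in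
`adj'` are at least `99/100 npr u`; at most `2 (D - |PU|) D` of them have an end outside of `PU u a ⊆ N(u)`
(for `A u` there are no virtual neighbours of `u`). -/
def St_SNp : Prop := ∀ (P : Par) (V κ : Type) [Fintype V] [Fintype κ] (t : Td V κ),
  Num10 P → Bse P t → ∀ u a, t.A P u → 4 * (t.dKU u : ℝ) ≤ P.delta * P.D →
  99 / 100 * (Pool.TN.npr t.G u : ℝ) - 2 * (P.D - (t.PU P u a).card) * P.D ≤
  ((((t.PU P u a) ×ˢ (t.PU P u a)).filter
      (fun w => w.1 ≠ w.2 ∧ ¬ t.adj' P w.1 w.2)).card : ℝ)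

/-- SMON (file `SMon.lean`). The bound `pq` decreases if `Pn` gets smaller. PROOF. Remove the elements of `A' \ A` one
by one: `npair` decreases at most by `|A'|` for one element. (Compare `Pool/Agent/Helper3/TCS/Core5.lean`.) -/
def St_SMon : Prop := ∀ (V κ : Type) [Fintype V] (S : CS V κ) (A A' : Finset V) (b l : ℝ),
  A ⊆ A' → 0 ≤ b → 0 < l → b * A'.card ≤ 2 * l →
  b * A.card / l - b ^ 2 / 2 * npair S A / l ^ 2 ≤
    b * A'.card / l - b ^ 2 / 2 * npair S A' / l ^ 2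

/-- SPQ (file `SPq.lean`): (H3'). PROOF. `Pn u a ⊆ CP := {w ∈ PU u a | cr w a}`, so with SMON `pq ≤` the value for `CP`.
`|CP| ≤ |PU|/2 + nz` (S3), `D/(2 ell) ≤ 1 + 1.1 h0 + 11 nz/D`, `h0 = 2 ^ (-r) ≤ β² δ/80`.
(1) If `delta D/4 < dKU u` or `u` is heavy: `pq ≤ β |CP|/ell ≤ β (1 - kap + 1.1 vir/D + 1.1 h0 + 14 nz/D)` by SPUC, `vir = 0` for
light `u`, and `vir/D ≤ 103 delta/eta^2 ≤ kap/100` for heavy `u` (`kap ≥ eta`). (2) Otherwise `s := D - |PU|`,
`2 npair(CP) ≥ (99/100 npr - 2 s D)/4 - D nz` (S4, SNP), `npr ≥ delta D^2` (d2), so `pq ≤ β (D - s)/(2 ell) + β nz/ell -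
(β^2/16)(99/100 npr - 2 s D)/ell^2 + β^2 D nz/ell^2`, the terms with `s` are `≤ 0` in total,
`≤ β (1 + 1.1 h0 + 20 nz/D) - 0.247 β^2 delta ≤ β - β^2 delta/10`. -/
def St_SPq : Prop := ∀ (P : Par) (V κ : Type) [Fintype V] [Fintype κ] (t : Td V κ)
  (X : V → Prop) (cX : V → κ) (L : V → Finset κ), Num10 P → Bse P t →
  (∀ u ∈ sU t, L u ⊆ sO t X cX u) → ∀ u ∈ sU t, ∀ a ∈ L u,
  (((Pn (sCS P t) (sU t) L u a).card : ℝ) ≤ (1 + 2 * (1 / 2) ^ P.r) * sl P t + 8 * P.nz) ∧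
  pq (sCS P t) (sU t) L (sl P t) (8 * P.kn) P.kn u a ≤ sb P - sb P ^ 2 * P.delta / 10 ∧
  (sk1 P ≤ skap P t u → pq (sCS P t) (sU t) L (sl P t) (8 * P.kn) P.kn u a ≤
    sb P * (1 - 9 / 10 * skap P t u))

/-- STST (file `STst.lean`). The tests. PROOF. Every weight is `≤ max 1 (eta D) = eta D` (`¬ hv` and `K w = none` give
`dk i w < eta D`; `eta D ≥ 1`). Locality: a vertex `w` with a neighbour in `K_i` is at distance `≤ 3` of `i`
(`loc`), and `E.N b w ∈ K_i` gives such a neighbour. `nm ≤ ∑_{w ∈ S} dk i w ≤ ∑_{v ∈ K_i} oo v ≤ 103 delta D²` in all three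
cases ((Q2): `m` is injective on `F0_i` by (F1), so for every `w` the number of `b` is at most the number
of the `y`). `sq`: row sums `≤ dk i w ≤ D`, column sums `≤ D`, so `sq ≤ 2 D nm ≤ 206 delta D³`. -/
def St_STst : Prop := ∀ (P : Par) (V κ : Type) [Fintype V] [Fintype κ] (t : Td V κ)
  (X : V → Prop) (cX : V → κ) (L : V → Finset κ), Num10 P → Bse P t →
  (∀ u ∈ sU t, L u ⊆ sO t X cX u) →
  Tst (sCS P t) (2 * P.D) (sctr (V := V) (κ := κ)) (sT P t) (fun _ => P.eta * P.D) ∧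
  (∀ j, nm (sU t) L (sT P t j) ≤ 103 * P.delta * P.D ^ 2) ∧
  (∀ j, sq (sCS P t) (sU t) L (sT P t j) ≤ 206 * P.delta * P.D ^ 3)

/-- SN (file `SN.lean`). The numbers (`j0 = |J0|`). PROOF. `β = sb P`, `1/(10.5 X³) ≤ β ≤ 1/(8 X³)`. `n := ⌈(33/β) log (2/thp)⌉`,
`thp/2 ≥ 1/X^4913`, `n ≤ X^5`, `(1 - 3 β)^n ≥ (thp/2)^104 ≥ 1/X^515000`, `L0 := ⌊D/X^520000⌋`, `ell1 := ⌊ell (1 - q0)(1 - 7 xi k1)
(1 - β x/ell) - Er ell⌋ ≥ D/2.2`. All errors `Er`, `nz/D` are `≤ 1/X^1000000`. -/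
def St_SN : Prop := ∀ (P : Par) (j0 ell : ℕ) (x : ℝ), Num10 P →
  (j0 : ℝ) ≤ (1 / 2) ^ P.r * ((P.D : ℝ) + 1) →
  ell = ⌊((P.D : ℝ) + 1 - j0) / 2 - 4 * P.nz⌋₊ → x = ((P.D : ℝ) + 1 - j0) / 2 + 2 * P.nz →
  ∃ (ell1 n L0 : ℕ), N8 (2 * P.D) ell ell1 P.kn n L0 P.Lam x P.delta P.thp P.xi (sk1 P) P.eta
      ((1 / 2) ^ P.r) (8 * P.nz) (P.thp / 2) ∧
    2 * Ht n P.kn P.Lam ell1 L0 (103 * P.delta * P.D ^ 2) (206 * P.delta * P.D ^ 3)
      (P.eta * P.D) ≤ P.eps * P.D ∧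
    (P.D : ℝ) ≤ 99 * ((1 - P.thp / 2) * ell1)

/-- SAS (file `SAs.lean`). The S-stage. PROOF. `L` from SLIS, the numbers from SN, `SAbs` from SLIS, SCOL, SPUC, SPQ (`h0 = 2 ^ (-r)`,
`nz := 8 nz`, `g = thp/2`; `kaph`: `hvk`; `hP2` from `hP`), tests STST, then `St_SB`. `cS x := c x` if `U x`, `m x` otherwise.
(Sg1): two rows of `F0 ∩ S` are candidates of the first kind (light, so no virtual edge) and have different `m` by
(F1); a row of `F0` has `m ∈ J0`, a row of `U` has `c ∉ J0`. (Q2): `m` is injective on `F0_i`, so the number of the `w` is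
at most the number of the `x` with a nonzero test. -/
def St_SAs : Prop := St_S10

end Pool.TCU
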