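import Pool.Agent.Helper93.TCU.SStmt2

/-!
# The numbers of the S-stage, in four steps
-/

set_option autoImplicit false

namespace Pool.TCU

open Pool.TC Pool.TCM Pool.TCS Pool.TCV Finset
open scoped Classical

/-- the common length of the lists after the first step -/
noncomputable def sell1 (P : Par) (ell : ℕ) (x : ℝ) : ℕ :=
  ⌊ell * ((1 - (bet (8 * P.kn) P.kn - bet (8 * P.kn) P.kn ^ 2 * P.delta / 10)) *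
    (1 - 7 * P.xi * sk1 P) * (1 - bet (8 * P.kn) P.kn * x / ell)) - Er P.kn P.Lam ell * ell⌋₊

/-- the number of steps -/
noncomputable def sn (P : Par) : ℕ := ⌈33 / sb P * Real.log (2 / P.thp)⌉₊

/-- the length of the lists at the end -/
noncomputable def sL0 (P : Par) : ℕ := ⌊(P.D : ℝ) / (P.X : ℝ) ^ 520000⌋₊

/-- the basic estimates -/
structure SFc (P : Par) (ell : ℕ) (x : ℝ) : Prop where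
  X0 : (10 : ℝ) ^ 20 ≤ P.X
  b1 : 1 / (11 * (P.X : ℝ) ^ 3) ≤ sb P
  b2 : sb P ≤ 1 / (8 * (P.X : ℝ) ^ 3)
  h0 : (1 / 2 : ℝ) ^ P.r ≤ sb P ^ 2 * P.delta / 80
  th1 : 1 / (P.X : ℝ) ^ 4912 ≤ P.thp / 2
  th2 : 2000 * P.xi * sk1 P ≤ P.thp
  th3 : P.thp ≤ sb P ^ 2 * P.delta / 320
  l1 : (P.D : ℝ) ≤ 21 / 10 * ell
  l2 : 2 * (ell : ℝ) ≤ P.D
  x1 : (ell : ℝ) ≤ x
  x2 : x ≤ ell + 7 * P.nz
  nz1 : P.nz * (P.X : ℝ) ^ 1000000 ≤ P.D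
  D1 : (P.X : ℝ) ^ 4000000 ≤ P.D
  er : ∀ y : ℝ, (P.D : ℝ) ≤ 3 * (P.X : ℝ) ^ 520000 * y →
    Er P.kn P.Lam y * (P.X : ℝ) ^ 1000000 ≤ 1
  hexp : 4 * Real.exp (-P.Lam) * ((3 * (((2 * P.D + 1) ^ 2 : ℕ) : ℝ) + 2) ^ 24 + 1) ≤ 1

/-- SN1 (file `SN1.lean`). PROOF. `β = 1/(8K) (1 - 1/(8K))^(2K)`, and Bernoulli gives `≥ (3/4)/(8K) ≥ 1/(11 K)`. `h0`: `Num10.r2`.
`th1`: `thp/2 ≥ β²δ/(160 · 8 · X^5)` by `Num10.r1`. `th2`: `xi = 206000 X^17 δ`, `sk1 = 20 xi/β ≤ 220 X^3 xi`.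
`th3`: `r2` and `pa ≥ 1`. `l1`, `l2`: `|J0|` is at most `2^(-7) (D + 1)`. `nz1`: `√D ≥ X^2000000`. `er`: `Lam / y ≤ 3 X^520003 / D ≤
X^(-3000000)`, and `2^18 (1/2)^(X^3) ≤ X^(-1000001)` since `2 ^ X ≥ X`, so `2 ^ (X * k) ≥ X ^ k`. `hexp`: `D < 2 ^ (X + 1)`
(`Num10.XL`), `exp(-X^3) ≤ 2^(-X^3)`, and `4 (3 (2D+1)^2 + 2)^24 + 4 ≤ (2^(2X + 10))^24 · 8 ≤ 2 ^ (X^3)`. -/
def St_SN1 : Prop := ∀ (P : Par) (j0 ell : ℕ) (x : ℝ), Num10 P →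
  (j0 : ℝ) ≤ (1 / 2) ^ P.r * ((P.D : ℝ) + 1) →
  ell = ⌊((P.D : ℝ) + 1 - j0) / 2 - 4 * P.nz⌋₊ → x = ((P.D : ℝ) + 1 - j0) / 2 + 2 * P.nz →
  SFc P ell x

/-- SN2 (file `SN2.lean`). PROOF. `w := 1 - β x/ell ≥ 0.9`, `y := Er K Lam ell ≤ X^(-1000000)`, `q0 := β - β²δ/10`.
`lis` is the definition of the floor (the number is `≥ 0`). `col1`: `1 - β ≤ w + 7 β nz/ell` since `x ≤ ell + 7 nz`. So
the left side is `≤ (1 - q0)(1 - th) w ell + 30 nz + 2 y ell`, the right side is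
`≥ (1 - th/2)((1 - q0)(1 - 7 xi k1) w ell - y ell - 1)`, and `th/2 - 7 xi k1 ≥ th/4` (`th2`), `th ell/8 ≥ 40 nz + 4 y ell + 2`.
`pn1`: `(1 - β)(1 + 2 h0) ≤ (1 - q0) - β²δ/10 + 2 h0 ≤ (1 - q0) - 0.075 β²δ` and
`(1 - q0)(1 - 7 xi k1)(1 - th/2) ≥ (1 - q0) - th ≥ (1 - q0) - β²δ/320`. -/
def St_SN2 : Prop := ∀ (P : Par) (ell : ℕ) (x : ℝ), Num10 P → SFc P ell x →
  (sell1 P ell x : ℝ) ≤ ell * ((1 - (bet (8 * P.kn) P.kn - bet (8 * P.kn) P.kn ^ 2 * P.delta / 10)) *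
    (1 - 7 * P.xi * sk1 P) * (1 - bet (8 * P.kn) P.kn * x / ell)) - Er P.kn P.Lam ell * ell ∧
  (1 - bet (8 * P.kn) P.kn) * (1 - (bet (8 * P.kn) P.kn - bet (8 * P.kn) P.kn ^ 2 * P.delta / 10)) *
    ((1 - P.thp) * ell + 8 * P.nz) + 2 * Er P.kn P.Lam ell * ell ≤
      (1 - P.thp / 2) * sell1 P ell x ∧
  (1 - bet (8 * P.kn) P.kn) * (1 - bet (8 * P.kn) P.kn * x / ell) *
    ((1 + 2 * (1 / 2) ^ P.r) * ell + 8 * P.nz) + 2 * Er P.kn P.Lam ell * ell ≤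
      (1 - P.thp / 2) * sell1 P ell x ∧
  (P.D : ℝ) ≤ 22 / 10 * sell1 P ell x ∧
  (P.D : ℝ) ≤ 99 * ((1 - P.thp / 2) * sell1 P ell x)

/-- SN3 (file `SN3.lean`). PROOF. `log (1 + β/32) ≥ β/33`, so `(1 + β/32)^n ≥ 2/thp`. `log (1 - 3 β) ≥ -3.03 β` and
`n ≤ (33/β) log (2/thp) + 1`, so `(1 - 3 β)^n ≥ (thp/2)^100/3 ≥ 1/(3 X^491200)`. `n ≤ 363 X^3 · 4912 log X + 1`. -/
def St_SN3 : Prop := ∀ (P : Par) (ell : ℕ) (x : ℝ), Num10 P → SFc P ell x →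
  (P.D : ℝ) ≤ 22 / 10 * sell1 P ell x →
  P.Lam ≤ sL0 P ∧ (P.D : ℝ) ≤ 2 * (P.X : ℝ) ^ 520000 * sL0 P ∧
  8 * Er P.kn P.Lam (sL0 P) ≤ P.thp / 2 * bet (8 * P.kn) P.kn / 32 ∧
  15 / 16 ≤ P.thp / 2 * (1 + bet (8 * P.kn) P.kn / 32) ^ sn P ∧
  (sL0 P : ℝ) ≤ sell1 P ell x * (1 - 3 * bet (8 * P.kn) P.kn) ^ sn P ∧
  (sn P : ℝ) ≤ (P.X : ℝ) ^ 5

/-- SN4 (file `SN4.lean`). PROOF. `t* ≤ 227 δ D + X^520012 √D ≤ D/X^4890`, the square root is `≤ 2 D/X^1597`, `n + 200 K ≤ 2 X^5`. -/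
def St_SN4 : Prop := ∀ (P : Par) (ell : ℕ) (x : ℝ), Num10 P → SFc P ell x →
  (P.D : ℝ) ≤ 22 / 10 * sell1 P ell x → (P.D : ℝ) ≤ 2 * (P.X : ℝ) ^ 520000 * sL0 P →
  (sn P : ℝ) ≤ (P.X : ℝ) ^ 5 →
  2 * Ht (sn P) P.kn P.Lam (sell1 P ell x) (sL0 P) (103 * P.delta * P.D ^ 2)
    (206 * P.delta * P.D ^ 3) (P.eta * P.D) ≤ P.eps * P.D

end Pool.TCU
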