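import Pool.Agent.Helper93.TCU.Stmts

/-!
# The S-stage: the nibble with lists of different lengths (section 8 of `TC10_helper93.md`)
-/

set_option autoImplicit false

namespace Pool.TCU

open Pool.TC Pool.TCM Pool.TCS Finset
open scoped Classical

/-- The hypotheses of one step for lists of length at most `l`. -/
structure HypL {V κ : Type} [Fintype V] [Fintype κ] (S : CS V κ) (U : Finset V)
    (L : V → Finset κ) (D l m K : ℕ) (x : ℝ) (q : V → κ → ℝ) (Lam : ℝ) : Prop where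
  deg : ∀ u, (univ.filter (fun v => S.adj u v)).card ≤ D
  col : Fintype.card κ ≤ D
  card : ∀ u ∈ U, (L u).card ≤ l
  inj2 : ∀ u ∈ U, ∀ a ∈ L u, ∀ a' ∈ L u, S.r u a = S.r u a' → a = a'
  hC : ∀ v, ((Cv S U L v).card : ℝ) ≤ x
  hP : ∀ u ∈ U, ∀ a ∈ L u, ((Pn S U L u a).card : ℝ) ≤ 2 * l
  hq : ∀ u ∈ U, ∀ a ∈ L u, pq S U L l m K u a ≤ q u a
  q0 : ∀ u a, 0 ≤ q u a
  q1 : ∀ u a, q u a ≤ 1 / 2
  l0 : 0 < l
  lD : l ≤ D
  x0 : 1 ≤ x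
  x1 : x ≤ 2 * l
  mK : 8 * K ≤ m
  K24 : 24 ≤ K
  L1 : 1 ≤ Lam
  LK : Lam ≤ K
  Ll : Lam ≤ l
  hexp : 4 * Real.exp (-Lam) * ((3 * (((D + 1) ^ 2 : ℕ) : ℝ) + 2) ^ 24 + 1) ≤ 1

/-- the missing part of the list -/
noncomputable def dd {V κ : Type} (L : V → Finset κ) (l : ℕ) (u : V) : ℝ :=
  1 - ((L u).card : ℝ) / l

/-- PAD. One step for lists of length at most `l`. PROOF. Every list is filled up to `l` elements with
dummies. `V' = V ⊕ (V × Fin l)`, `κ' = κ ⊕ (Fin (D + 1) × Fin l)`, `idx : V → Fin (D + 1)` a proper colouring of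
`S.adj` (`TCT.St_Greedy`); the dummies of `u` are the first `l - |L u|` of the colours `inr (idx u, t)`;
`r (inl u) (inl a) = inl (S.r u a)`, `r (inl u) (inr (i, t)) = inr (u, t)`, `r (inr p) (inl a) = inr p`,
`r (inr (u, s)) (inr (i, t)) = inl u` if `s = t` and `inr (u, s)` otherwise; `adj` only between `inl`s. `q = 0` for
dummies (`Pn` of a dummy is empty, so `pq = 0`). Apply `St_Step2` with `D' = (D + 1) ^ 2`, `M' = M` (real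
options only), and the tests: the given ones, for every `(u, a)` the test `1` on `(w, a)`, `w ∈ Pn u a`, for every
`(u, a)` the test `1` on `(w, dummy)`, `w ∈ Pn u a`, and for every `v` the test `1` on `(w, dummy)` if
`(w, b) ∈ Cv v` for some `b`. `B` := the retained vertices with a real choice; the other retained
vertices (with a dummy choice) stay, their number in `Pn u a` (in `Cv v`) is at most
`β ∑ dd w + 12 K √((∑ dd w + Lam) Lam)`, and `12 K √(3 l Lam) + 8 + 64 K² √(4 l Lam) ≤ 2 Er l`. -/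
def St_Step3 : Prop := ∀ (V κ J : Type) [Fintype V] [Fintype κ] [Fintype J] [Nonempty κ]
  (S : CS V κ) (U : Finset V) (L : V → Finset κ) (D l m K : ℕ) (x : ℝ) (q : V → κ → ℝ)
  (Lam : ℝ) (ctr : J → V) (T : J → V → κ → ℝ) (μ : J → ℝ),
  HypL S U L D l m K x q Lam → Tst S D ctr T μ →
  ∃ (B : Finset V) (c : V → κ) (L' : V → Finset κ), B ⊆ U ∧ (∀ u ∈ B, c u ∈ L u) ∧
    (∀ u ∈ B, ∀ w ∈ B, u ≠ w → S.r u (c u) ≠ S.r w (c w)) ∧
    (∀ u ∈ B, ∀ w ∈ B, S.adj u w → c u ≠ c w) ∧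
    (∀ u ∈ U, L' u ⊆ L u) ∧
    (∀ u ∈ U, ∀ w ∈ B, w ≠ u → ∀ a ∈ L' u, ¬ (S.adj u w ∧ c w = a) ∧
      S.r w (c w) ≠ S.r u a) ∧
    (∀ u ∈ U, (∑ a ∈ L u, (1 - q u a) * (1 - bet m K * x / l)) - Er K Lam l * l ≤
      ((L' u).card : ℝ)) ∧
    (∀ v, (((Cv S U L v).filter (fun p => p.1 ∉ B ∧ p.2 ∈ L' p.1)).card : ℝ) ≤
      (∑ p ∈ Cv S U L v, ((1 - bet m K) * (1 - q p.1 p.2) + bet m K * dd L l p.1)) +
        2 * Er K Lam l * l) ∧
    (∀ u ∈ U, ∀ a ∈ L u, (((Pn S U L u a).filter (fun w => w ∉ B ∧ a ∈ L' w)).card : ℝ) ≤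
      (∑ w ∈ Pn S U L u a, (Mt S U L l m K x q w a + bet m K * dd L l w)) +
        2 * Er K Lam l * l) ∧
    (∀ j, ∑ w ∈ B, T j w (c w) ≤ bet m K * nm U L (T j) / l +
      12 * K * Real.sqrt ((μ j * nm U L (T j) / l + Lam * μ j ^ 2) * Lam))

/-- the numerical conditions for the S-nibble; `β = bet (8 K) K`, `q0 = β - β² δ / 10` -/
structure N8 (D ell ell1 K n L0 : ℕ) (Lam x δ th xi k1 eta h0 nz g : ℝ) : Prop where
  hexp : 4 * Real.exp (-Lam) * ((3 * (((D + 1) ^ 2 : ℕ) : ℝ) + 2) ^ 24 + 1) ≤ 1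
  l0 : 0 < ell
  lD : ell ≤ D
  x0 : 1 ≤ x
  x1 : x ≤ 2 * ell
  K24 : 24 ≤ K
  L1 : 1 ≤ Lam
  LK : Lam ≤ K
  Ll : Lam ≤ ell
  δ0 : 0 < δ
  δ1 : δ ≤ 1
  th0 : 0 < th
  th1 : th ≤ 1 / 8
  xi0 : 0 ≤ xi
  xi1 : xi ≤ 1 / 100
  k10 : 0 < k1
  kx : 20 * xi ≤ bet (8 * K) K * k1
  kd : bet (8 * K) K * δ ≤ k1
  ke : k1 ≤ eta
  e1 : eta ≤ 1
  the : 20 * th ≤ bet (8 * K) K * eta ^ 2
  h00 : 0 ≤ h0
  nz0 : 0 ≤ nz
  lis : (ell1 : ℝ) ≤ ell * ((1 - (bet (8 * K) K - bet (8 * K) K ^ 2 * δ / 10)) *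
    (1 - 7 * xi * k1) * (1 - bet (8 * K) K * x / ell)) - Er K Lam ell * ell
  col1 : (1 - bet (8 * K) K) * (1 - (bet (8 * K) K - bet (8 * K) K ^ 2 * δ / 10)) *
    ((1 - th) * ell + nz) + 2 * Er K Lam ell * ell ≤ (1 - g) * ell1
  pn1 : (1 - bet (8 * K) K) * (1 - bet (8 * K) K * x / ell) * ((1 + 2 * h0) * ell + nz) +
    2 * Er K Lam ell * ell ≤ (1 - g) * ell1
  g0 : 0 < g
  g1 : g ≤ 15 / 16
  L00 : 0 < L0
  LL0 : Lam ≤ L0
  err : 8 * Er K Lam L0 ≤ g * bet (8 * K) K / 32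
  gn : 15 / 16 ≤ g * (1 + bet (8 * K) K / 32) ^ n
  L0n : (L0 : ℝ) ≤ ell1 * (1 - 3 * bet (8 * K) K) ^ n

/-- the killing probabilities of the first step -/
noncomputable def qS {V κ : Type} (L : V → Finset κ) (ell K : ℕ) (δ th k1 : ℝ) (kap : V → ℝ)
    (hh : V → Prop) (kt : V → κ → Prop) (u : V) (a : κ) : ℝ :=
  if kt u a ∧ k1 ≤ kap u then bet (8 * K) K * (1 - kap u / 2)
  else (bet (8 * K) K - bet (8 * K) K ^ 2 * δ / 10) + 2 * bet (8 * K) K * dd L ell u +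
    (if hh u then 2 * th else 0)

/-- The abstract form of the S-stage: `kap u` is the fraction of the neighbours of `u` in the near-cliques, `hh u`
means that `u` is heavy, `kt u a` means that the right vertex of the option is in a near-clique. -/
structure SAbs {V κ : Type} [Fintype V] [Fintype κ] (S : CS V κ) (U : Finset V)
    (L : V → Finset κ) (D ell ell1 K : ℕ) (x δ th xi k1 eta h0 nz g : ℝ) (kap : V → ℝ)
    (hh : V → Prop) (kt : V → κ → Prop) : Prop where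
  deg : ∀ u, (univ.filter (fun v => S.adj u v)).card ≤ D
  col : Fintype.card κ ≤ D
  card : ∀ u ∈ U, (L u).card ≤ ell
  inj2 : ∀ u ∈ U, ∀ a ∈ L u, ∀ a' ∈ L u, S.r u a = S.r u a' → a = a'
  kap0 : ∀ u, 0 ≤ kap u
  kap1 : ∀ u, kap u ≤ 1
  kaph : ∀ u ∈ U, hh u → eta ≤ kap u
  dum : ∀ u ∈ U, dd L ell u ≤ 21 / 5 * xi * kap u
  typ : ∀ u ∈ U, k1 ≤ kap u →
    9 / 10 * kap u * ell ≤ ((L u).filter (fun a => kt u a)).card
  hC : ∀ v, ((Cv S U L v).card : ℝ) ≤ x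
  hC2 : ∀ v, ((Cv S U L v).card : ℝ) ≤ (1 - g) * ell1 ∨
    ((∀ p ∈ Cv S U L v, ¬ kt p.1 p.2) ∧
      (((Cv S U L v).filter (fun p => ¬ hh p.1)).card : ℝ) +
      (1 - 2 * th) * ((Cv S U L v).filter (fun p => hh p.1)).card ≤ (1 - th) * ell + nz)
  hP : ∀ u ∈ U, ∀ a ∈ L u, ((Pn S U L u a).card : ℝ) ≤ (1 + 2 * h0) * ell + nz
  hP2 : ∀ u ∈ U, ∀ a ∈ L u, ((Pn S U L u a).card : ℝ) ≤ 2 * ell
  pq0 : ∀ u ∈ U, ∀ a ∈ L u, pq S U L ell (8 * K) K u a ≤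
    bet (8 * K) K - bet (8 * K) K ^ 2 * δ / 10
  pq1 : ∀ u ∈ U, ∀ a ∈ L u, k1 ≤ kap u →
    pq S U L ell (8 * K) K u a ≤ bet (8 * K) K * (1 - 9 / 10 * kap u)

/-- SB. The S-nibble. PROOF. `St_Step3` with `m = 8 K` and `q = qS`. LISTS: `∑ a ∈ L u, (1 - q u a) ≥
ell (1 - q0) (1 - 3/2 d1)`, `d1 = 21/5 xi k1` (if `kap u < k1` then `u` is not heavy and `dd ≤ d1`; if `k1 ≤ kap u` then
`0.36 β kap² ≥ 4.25 xi kap + 2 th [heavy]`). So every `u ∈ U` keeps at least `ell1` options; trim. COLUMNS: first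
alternative of `hC2` trivial; second: `(1 - β)(1 - q) + β dd ≤ (1 - β)(1 - q0)(1 - 2 th [heavy])`.
PN: `fK ≥ q - pq ≥ 2 β dd` for every option, so `Mt + β dd ≤ (1 - β)(1 - β x / ell)`. Then `St_Iter2` for
`U \ B` and the trimmed lists. Tests: `nm`, `sq` do not increase; the first step contributes at most
`nT / ell + 12 K √(...) ≤ Ht`. -/
def St_SB : Prop := ∀ (V κ J : Type) [Fintype V] [Fintype κ] [Fintype J] [Nonempty κ]
  (S : CS V κ) (U : Finset V) (L : V → Finset κ) (D ell ell1 K n L0 : ℕ)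
  (Lam x δ th xi k1 eta h0 nz g nT sT mT : ℝ) (kap : V → ℝ) (hh : V → Prop)
  (kt : V → κ → Prop) (ctr : J → V) (T : J → V → κ → ℝ),
  N8 D ell ell1 K n L0 Lam x δ th xi k1 eta h0 nz g →
  SAbs S U L D ell ell1 K x δ th xi k1 eta h0 nz g kap hh kt →
  Tst S D ctr T (fun _ => mT) → (∀ j, nm U L (T j) ≤ nT) → (∀ j, sq S U L (T j) ≤ sT) →
  ∃ c : V → κ, (∀ u ∈ U, c u ∈ L u) ∧
    (∀ u ∈ U, ∀ w ∈ U, u ≠ w → S.r u (c u) ≠ S.r w (c w)) ∧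
    (∀ u ∈ U, ∀ w ∈ U, S.adj u w → c u ≠ c w) ∧
    ∀ j, ∑ u ∈ U, T j u (c u) ≤ 2 * Ht n K Lam ell1 L0 nT sT mT

end Pool.TCU
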