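import Pool.Agent.Helper93.TCU.Defs

/-!
# Statements for section 7 of the paper proof `TC10_helper93.md`

Every statement is proved like the statement with the same name in `Pool.TCS`
(`Pool/Agent/Helper3/TCS`), the changes are described in the comments. `β = bet m K`.
-/

set_option autoImplicit false

namespace Pool.TCU

open Pool.TC Pool.TCM Pool.TCS Finset
open scoped Classical

/-! ### The choice -/

/-- TRIP. The mean of `kR' npair(KP)`: a term `(w1, w2, w3)` with `w3 ∈ {w1, w2}` vanishes (`w3` would choose `a`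
and the option to `r u a`, and `r (·) a` is injective), the others have mean `1 / l³` (`St_Box`). -/
def St_Trip : Prop := ∀ (V κ : Type) [Fintype V] [Fintype κ] (S : CS V κ) (U : Finset V)
  (L : V → Finset κ) (D l m K : ℕ) (x : ℝ) (q : V → κ → ℝ) (Lam : ℝ) (e : V → Fin l → κ),
  Hyp S U L D l m K x q Lam → Enu U L l e → ∀ u ∈ U, ∀ a ∈ L u,
  mean (fun ω : V → Fin l => ((KR S U (oc e ω) u (S.r u a)).card : ℝ) *
    npair S (KP S U (oc e ω) u a)) ≤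
  (((Cv S U L (S.r u a)).card : ℝ) - 1) / l * (npair S (Pn S U L u a) / (l : ℝ) ^ 2)

/-- E1. As `TCS.St_E1`. With `P = |Pn| / l`, `N2 = npair / l²`, `R = (|C| - 1) / l`: `E kP = P`, `E kR' = R`,
`E npP = N2`, `E (kP kR') ≥ P R - P / l`, `E (kR' npP) ≤ R N2` (a vertex cannot choose both `a` and the
option to `r u a`, so the three vertices are different), `P(k > 2K)`-terms `≤ 2 ^ 18 (1 / 4) ^ K` because
`E 4 ^ (kP + kR') ≤ exp 12`. So `E [...] ≥ (1 - pq) (1 - β R) - β² P / l - 2 ^ 18 (1 / 4) ^ K`. -/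
def St_E1 : Prop := ∀ (V κ : Type) [Fintype V] [Fintype κ] (S : CS V κ) (U : Finset V)
  (L : V → Finset κ) (D l m K : ℕ) (x : ℝ) (q : V → κ → ℝ) (Lam : ℝ) (e : V → Fin l → κ),
  Hyp S U L D l m K x q Lam → Enu U L l e → ∀ u ∈ U, ∀ a ∈ L u,
  (1 - q u a) * (1 - bet m K * x / l) - 2 ^ 18 * (1 / 4) ^ K - 2 / l ≤
    mean (fun ω : V → Fin l => Psi1 S U L l m K x q (oc e ω) u a)

/-- E2. As `TCS.St_E2`, simpler: `min ≤` first argument, `E (1 - β kP + β² npP / 2) = 1 - pq`. -/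
def St_E2 : Prop := ∀ (V κ : Type) [Fintype V] [Fintype κ] (S : CS V κ) (U : Finset V)
  (L : V → Finset κ) (D l m K : ℕ) (x : ℝ) (q : V → κ → ℝ) (Lam : ℝ) (e : V → Fin l → κ),
  Hyp S U L D l m K x q Lam → Enu U L l e → ∀ w ∈ U, ∀ b ∈ L w,
  mean (fun ω : V → Fin l => Psi2 S U L l m K q (oc e ω) w b) ≤ (1 - bet m K) * (1 - q w b)

/-- E3. As `TCS.St_E3`, simpler: `E kR' = (|C| - 1) / l`. -/
def St_E3 : Prop := ∀ (V κ : Type) [Fintype V] [Fintype κ] (S : CS V κ) (U : Finset V)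
  (L : V → Finset κ) (D l m K : ℕ) (x : ℝ) (q : V → κ → ℝ) (Lam : ℝ) (e : V → Fin l → κ),
  Hyp S U L D l m K x q Lam → Enu U L l e → ∀ w ∈ U, ∀ a ∈ L w,
  mean (fun ω : V → Fin l => Psi3 S U L l m K x q (oc e ω) w a) ≤
    Mt S U L l m K x q w a + 2 / l

/-- E4. As `TCS.St_E4` (`|Pn|, |C| ≤ 2 l`, so `E 4 ^ k ≤ exp 6`). -/
def St_E4 : Prop := ∀ (V κ : Type) [Fintype V] [Fintype κ] (S : CS V κ) (U : Finset V)
  (L : V → Finset κ) (D l m K : ℕ) (x : ℝ) (q : V → κ → ℝ) (Lam : ℝ) (e : V → Fin l → κ),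
  Hyp S U L D l m K x q Lam → Enu U L l e →
  (∀ u ∈ U, ∀ a ∈ L u, ((univ.filter (fun ω : V → Fin l =>
    K < (KP S U (oc e ω) u a).card)).card : ℝ) ≤ Real.exp (-Lam) * Fintype.card (V → Fin l)) ∧
  (∀ v, ((univ.filter (fun ω : V → Fin l =>
    K < (univ.filter (fun w => w ∈ U ∧ S.r w (oc e ω w) = v)).card)).card : ℝ) ≤
      Real.exp (-Lam) * Fintype.card (V → Fin l))

/-- I1. As `TCS.St_I1`; every summand changes by at most `2 β + 2 β² K² + β³ K³ ≤ 1`, at most four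
summands change, and `∑ |R w| ≤ 2 l l + 2 l l`. -/
def St_I1 : Prop := ∀ (V κ : Type) [Fintype V] [Fintype κ] (S : CS V κ) (U : Finset V)
  (L M : V → Finset κ) (D l m K : ℕ) (x : ℝ) (q : V → κ → ℝ) (Lam : ℝ) (e : V → Fin l → κ),
  Hyp S U L D l m K x q Lam → Enu U L l e → ∀ u ∈ U, ∃ R : V → Finset (Fin l),
  Infl S l u (fun ω => ∑ a ∈ L u ∩ M u, Psi1 S U L l m K x q (oc e ω) u a) R

/-- I2. As `TCS.St_I2`. -/
def St_I2 : Prop := ∀ (V κ : Type) [Fintype V] [Fintype κ] (S : CS V κ) (U : Finset V)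
  (L : V → Finset κ) (D l m K : ℕ) (x : ℝ) (q : V → κ → ℝ) (Lam : ℝ) (e : V → Fin l → κ),
  Hyp S U L D l m K x q Lam → Enu U L l e → ∀ v, ∃ R : V → Finset (Fin l),
  Infl S l v (fun ω => ∑ p ∈ Cv S U L v, Psi2 S U L l m K q (oc e ω) p.1 p.2) R

/-- C3. The sum is a constant minus `∑ w', f w' (ω w')`, `f w' i = β ∑ (1 - β)(1 - eR)(1 - fK) T` over the
options of other vertices which use `r w' (e w' i)`; `0 ≤ f w' i ≤ β cs (r w' (e w' i))`,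
`∑ f² ≤ β² ∑_v |C(v)| cs(v)² ≤ 2 l β² ∑_v cs(v)²`. `TCT.St_BernL` with `W = β² (2 + Lam) ∑ cs² + tiny`, mean by E3.
(If all `cs = 0` the sum is zero.) The bound only needs the coordinates `w'` with `near S 5 (ctr j) w'`. -/
def St_C3 : Prop := ∀ (V κ : Type) [Fintype V] [Fintype κ] (S : CS V κ) (U : Finset V)
  (L : V → Finset κ) (D l m K : ℕ) (x : ℝ) (q : V → κ → ℝ) (Lam : ℝ) (e : V → Fin l → κ)
  (T : V → κ → ℝ), Hyp S U L D l m K x q Lam → Enu U L l e → (∀ w b, 0 ≤ T w b) →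
  ((univ.filter (fun ω : V → Fin l =>
    (∑ w ∈ U, ∑ b ∈ L w, T w b * Mt S U L l m K x q w b) + 2 * nm U L T / l +
      Real.sqrt (sq S U L T * Lam) <
    ∑ w ∈ U, ∑ b ∈ L w, T w b * Psi3 S U L l m K x q (oc e ω) w b)).card : ℝ) ≤
      Real.exp (-Lam) * Fintype.card (V → Fin l)

/-- C4. `TCT.St_BernL` with `c = μ`, `W = μ nm / l + Lam μ²` (if `μ = 0` trivial). -/
def St_C4 : Prop := ∀ (V κ : Type) [Fintype V] [Fintype κ] (U : Finset V)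
  (L : V → Finset κ) (l : ℕ) (Lam μ : ℝ) (e : V → Fin l → κ) (T : V → κ → ℝ),
  Enu U L l e → 0 < l → 0 < Lam → 0 ≤ μ → (∀ w b, 0 ≤ T w b) → (∀ w b, T w b ≤ μ) →
  ((univ.filter (fun ω : V → Fin l => nm U L T / l +
    3 * Real.sqrt ((μ * nm U L T / l + Lam * μ ^ 2) * Lam) < ∑ w ∈ U, T w (oc e ω w))).card : ℝ) ≤
      Real.exp (-Lam) * Fintype.card (V → Fin l)

/-- CHOICE. As `TCS.St_Choice`: LLL0, Bern (`c = 4`, `P = 4 l`) for `c1`, `c2`. -/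
def St_Choice : Prop := ∀ (V κ J : Type) [Fintype V] [Fintype κ] [Fintype J] [Nonempty κ]
  (S : CS V κ) (U : Finset V) (L M : V → Finset κ) (D l m K : ℕ) (x : ℝ) (q : V → κ → ℝ)
  (Lam : ℝ) (ctr : J → V) (T : J → V → κ → ℝ) (μ : J → ℝ),
  Hyp S U L D l m K x q Lam → Tst S D ctr T μ →
  ∃ o : V → κ, Good S U L M l m K x q Lam T μ o

/-! ### The activation -/

/-- RET. As `TCS.St_Ret` (the events `retv` are the same). The third item: `retv t` needs `actv t`, which is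
independent of `retv u ∧ retv w`. The last item: independence of different labels. -/
def St_Ret : Prop := ∀ (V κ : Type) [Fintype V] [Fintype κ] (S : CS V κ) (U : Finset V)
  (L : V → Finset κ) (D l m K : ℕ) (x : ℝ) (q : V → κ → ℝ) (Lam : ℝ) (o : V → κ),
  Hyp S U L D l m K x q Lam → Cho S U L K o →
  (∀ u ∈ U, mean (fun ω => if retv S U o m K ω u then (1 : ℝ) else 0) = bet m K) ∧
  (∀ u ∈ U, ∀ w ∈ U, u ≠ w → ¬ conf S o u w →
    bet m K ^ 2 ≤ mean (fun ω => if retv S U o m K ω u ∧ retv S U o m K ω w then (1 : ℝ) else 0)) ∧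
  (∀ u ∈ U, ∀ w ∈ U, ∀ t ∈ U, u ≠ t → w ≠ t → ¬ conf S o u t → ¬ conf S o w t →
    mean (fun ω => if retv S U o m K ω u ∧ retv S U o m K ω w ∧ retv S U o m K ω t
      then (1 : ℝ) else 0) ≤
    1 / m * mean (fun ω => if retv S U o m K ω u ∧ retv S U o m K ω w then (1 : ℝ) else 0)) ∧
  (∀ f : (Lab V κ → Fin (m ^ (2 * K + 1))) → ℝ,
    (∀ ω ω', (∀ t, ω (Sum.inl t) = ω' (Sum.inl t)) → f ω = f ω') →
    ∀ (v : V) (p : V × κ) (tb tk : ℕ), tb ≤ m ^ (2 * K + 1) → tk ≤ m ^ (2 * K + 1) →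
    mean (fun ω => if ¬ (ω (Sum.inr (Sum.inl v))).val < tb ∧ ¬ (ω (Sum.inr (Sum.inr p))).val < tk
      then f ω else 0) =
    mean f * (1 - (tb : ℝ) / (m : ℝ) ^ (2 * K + 1)) * (1 - (tk : ℝ) / (m : ℝ) ^ (2 * K + 1)))

/-- PK. `t` = number of retained vertices in `KP`; `1[t ≥ 1] ≤ t - C(t,2) + C(t,3)`,
`E C(t,3) ≤ (K / (3 m)) E C(t,2) ≤ E C(t,2) / 24` by RET (a triple with a conflict has probability 0),
`E C(t,2) ≥ β² npair KP`. The positivity of `A2`, `A3`: `P(retv) = β`, union bound. -/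
def St_PK : Prop := ∀ (V κ : Type) [Fintype V] [Fintype κ] (S : CS V κ) (U : Finset V)
  (L : V → Finset κ) (D l m K : ℕ) (x : ℝ) (q : V → κ → ℝ) (Lam : ℝ) (o : V → κ),
  Hyp S U L D l m K x q Lam → Cho S U L K o → ∀ u ∈ U, ∀ a ∈ L u,
  Ss S U m K o u a ≤ A0 S U o m K u a ∧ 3 / 4 ≤ Ss S U m K o u a ∧ Ss S U m K o u a ≤ 1 ∧
    3 / 4 ≤ A2 S U o m K u a ∧ 3 / 4 ≤ A3 S U o m K u a

/-- A1. `KR'` is a set of pairwise conflicting vertices; no vertex of `KR'` is in `KP` or in conflict with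
`KP` (`S.inj`). For `w` in `KR'`: `retv w` = `actv w`, `goodv w`, the vertices in conflict with `w` are not
active. `nP` does not depend on the labels of `w`, and it can only become false if the vertices in
conflict with `w` are made inactive (none of them is in `KP`). So `P(retv w, nP) ≤ β P(nP)`. -/
def St_A1 : Prop := ∀ (V κ : Type) [Fintype V] [Fintype κ] (S : CS V κ) (U : Finset V)
  (L : V → Finset κ) (D l m K : ℕ) (x : ℝ) (q : V → κ → ℝ) (Lam : ℝ) (o : V → κ),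
  Hyp S U L D l m K x q Lam → Cho S U L K o → ∀ u ∈ U, ∀ a ∈ L u,
  A0 S U o m K u a * (1 - bet m K * (KR S U o u (S.r u a)).card) ≤ A1 S U o m K u a

/-- IND. If the option is not bad the event `retv u` depends on other labels than `nP` and `nR`. -/
def St_Ind : Prop := ∀ (V κ : Type) [Fintype V] [Fintype κ] (S : CS V κ) (U : Finset V)
  (L : V → Finset κ) (D l m K : ℕ) (x : ℝ) (q : V → κ → ℝ) (Lam : ℝ) (o : V → κ),
  Hyp S U L D l m K x q Lam → Cho S U L K o → ∀ u ∈ U, ∀ a ∈ L u, ¬ Bad S U o u a →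
  A2 S U o m K u a = (1 - bet m K) * A0 S U o m K u a ∧
    A3 S U o m K u a = (1 - bet m K) * (1 - bet m K * (KR S U o u (S.r u a)).card)

/-- BAD. `|cb u| ≤ 2 K + (2 K)²`; a vertex `w` of `cb u` makes at most two options bad: `a = o w` and the `a` with
`S.r u a = S.r w (o w)`. -/
def St_Bad : Prop := ∀ (V κ : Type) [Fintype V] [Fintype κ] (S : CS V κ) (U : Finset V)
  (L : V → Finset κ) (D l m K : ℕ) (x : ℝ) (q : V → κ → ℝ) (Lam : ℝ) (o : V → κ),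
  Hyp S U L D l m K x q Lam → Cho S U L K o → ∀ u ∈ U,
  ((L u).filter (fun a => Bad S U o u a)).card ≤ 10 * K ^ 2

/-- M1. `P(alive) = A1 (1 - ⌊eR N⌋ / N)(1 - ⌊(1 - gS) N⌋ / N) ≥ A1 (1 - eR) gS`; if the option is not bad this is
`≥ Psi1` (the minima in `Psi1` are attained by the first arguments since `kP, kR ≤ K`), otherwise use `Psi1 ≤ 1`. -/
def St_M1 : Prop := ∀ (V κ : Type) [Fintype V] [Fintype κ] (S : CS V κ) (U : Finset V)
  (L M : V → Finset κ) (D l m K : ℕ) (x : ℝ) (q : V → κ → ℝ) (Lam : ℝ) (o : V → κ),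
  Hyp S U L D l m K x q Lam → Cho S U L K o → ∀ u ∈ U,
  (∑ a ∈ L u ∩ M u, Psi1 S U L l m K x q o u a) - 10 * (K : ℝ) ^ 2 ≤
    mean (G1 S U L M l m K x q o u)

/-- M2. `P(¬ retv, nP, ¬ ekv) ≤ A2 gS + (1 / 2) ^ K ≤ Psi2 + (1 / 2) ^ K`. -/
def St_M2 : Prop := ∀ (V κ : Type) [Fintype V] [Fintype κ] (S : CS V κ) (U : Finset V)
  (L : V → Finset κ) (D l m K : ℕ) (x : ℝ) (q : V → κ → ℝ) (Lam : ℝ) (o : V → κ),
  Hyp S U L D l m K x q Lam → Cho S U L K o → ∀ v,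
  mean (G2 S U L l m K q o v) ≤
    (∑ p ∈ Cv S U L v, Psi2 S U L l m K q o p.1 p.2) + 2 * (1 / 2) ^ K * l

/-- M3. `P(¬ retv, nR, ¬ bkv, ¬ ekv) ≤ A3 (1 - eR) gS + 2 (1 / 2) ^ K`. -/
def St_M3 : Prop := ∀ (V κ : Type) [Fintype V] [Fintype κ] (S : CS V κ) (U : Finset V)
  (L : V → Finset κ) (D l m K : ℕ) (x : ℝ) (q : V → κ → ℝ) (Lam : ℝ) (o : V → κ)
  (T : V → κ → ℝ),
  Hyp S U L D l m K x q Lam → Cho S U L K o → (∀ w b, 0 ≤ T w b) →
  mean (G3 S U L l m K x q o T) ≤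
    (∑ w ∈ U, ∑ b ∈ L w, T w b * Psi3 S U L l m K x q o w b) + 2 * (1 / 2) ^ K * nm U L T

/-- M4. -/
def St_M4 : Prop := ∀ (V κ : Type) [Fintype V] [Fintype κ] (S : CS V κ) (U : Finset V)
  (L : V → Finset κ) (D l m K : ℕ) (x : ℝ) (q : V → κ → ℝ) (Lam : ℝ) (o : V → κ)
  (T : V → κ → ℝ),
  Hyp S U L D l m K x q Lam → Cho S U L K o →
  mean (G4 S U m K o T) = bet m K * ∑ w ∈ U, T w (o w)

/-- J1. As `TCS.St_J1`. -/
def St_J1 : Prop := ∀ (V κ : Type) [Fintype V] [Fintype κ] (S : CS V κ) (U : Finset V)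
  (L M : V → Finset κ) (D l m K : ℕ) (x : ℝ) (q : V → κ → ℝ) (Lam : ℝ) (o : V → κ),
  Hyp S U L D l m K x q Lam → Cho S U L K o → ∀ u ∈ U,
  ∃ cc, Dif S m K u (450 * (K : ℝ) ^ 4 * l) (G1 S U L M l m K x q o u) cc

/-- J2. As `TCS.St_J2`. -/
def St_J2 : Prop := ∀ (V κ : Type) [Fintype V] [Fintype κ] (S : CS V κ) (U : Finset V)
  (L : V → Finset κ) (D l m K : ℕ) (x : ℝ) (q : V → κ → ℝ) (Lam : ℝ) (o : V → κ),
  Hyp S U L D l m K x q Lam → Cho S U L K o → ∀ v,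
  ∃ cc, Dif S m K v (450 * (K : ℝ) ^ 4 * l) (G2 S U L l m K q o v) cc

/-- J3. `cc (act t) = ∑ y, rs y + cs (r y (o y))` over the at most `2 K + 1` vertices `y` of `U` which are `t` or in
conflict with `t` (`rs`, `cs` restricted to `U`), `cc (coin t)` = the term of `t`, `cc (bk v) = cs v`,
`cc (ek (w, b)) = T w b` for `w ∈ U`, `b ∈ L w`. At most `K` vertices `y` have the same `r y (o y)`. -/
def St_J3 : Prop := ∀ (V κ : Type) [Fintype V] [Fintype κ] (S : CS V κ) (U : Finset V)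
  (L : V → Finset κ) (D l m K : ℕ) (x : ℝ) (q : V → κ → ℝ) (Lam : ℝ) (o : V → κ)
  (T : V → κ → ℝ) (v : V),
  Hyp S U L D l m K x q Lam → Cho S U L K o → (∀ w b, 0 ≤ T w b) →
  (∀ w b, T w b ≠ 0 → near S 3 v w) →
  ∃ cc, Dif S m K v (10 * (K : ℝ) ^ 3 * sq S U L T) (G3 S U L l m K x q o T) cc

/-- J4. `cc (act t) = ∑ y, T y (o y)` over `y ∈ U`, `y = t` or in conflict with `t`. -/
def St_J4 : Prop := ∀ (V κ : Type) [Fintype V] [Fintype κ] (S : CS V κ) (U : Finset V)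
  (L : V → Finset κ) (D l m K : ℕ) (x : ℝ) (q : V → κ → ℝ) (Lam μ : ℝ) (o : V → κ)
  (T : V → κ → ℝ) (v : V),
  Hyp S U L D l m K x q Lam → Cho S U L K o → (∀ w b, 0 ≤ T w b) → (∀ w b, T w b ≤ μ) →
  (∀ w b, T w b ≠ 0 → near S 3 v w) →
  ∃ cc, Dif S m K v (5 * (K : ℝ) ^ 2 * (μ * ∑ w ∈ U, T w (o w))) (G4 S U m K o T) cc

/-- ACTI. As `TCS.St_Acti` (LM). If `sq = 0` then `G3 = 0`, if `μ ∑ T = 0` then `G4 = 0`. Two functions share a
label only if their centres are at distance at most `16`. -/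
def St_Acti : Prop := ∀ (V κ J : Type) [Fintype V] [Fintype κ] [Fintype J] (S : CS V κ)
  (U : Finset V) (L M : V → Finset κ) (D l m K : ℕ) (x : ℝ) (q : V → κ → ℝ) (Lam : ℝ)
  (ctr : J → V) (T : J → V → κ → ℝ) (μ : J → ℝ) (o : V → κ),
  Hyp S U L D l m K x q Lam → Tst S D ctr T μ → Cho S U L K o →
  ∃ ω : Lab V κ → Fin (m ^ (2 * K + 1)),
    (∀ u ∈ U, (∑ a ∈ L u ∩ M u, Psi1 S U L l m K x q o u a) - 10 * (K : ℝ) ^ 2 -
      30 * (K : ℝ) ^ 2 * Real.sqrt (l * Lam) ≤ G1 S U L M l m K x q o u ω) ∧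
    (∀ v, G2 S U L l m K q o v ω ≤ (∑ p ∈ Cv S U L v, Psi2 S U L l m K q o p.1 p.2) +
      2 * (1 / 2) ^ K * l + 30 * (K : ℝ) ^ 2 * Real.sqrt (l * Lam)) ∧
    (∀ j, G3 S U L l m K x q o (T j) ω ≤
      (∑ w ∈ U, ∑ b ∈ L w, T j w b * Psi3 S U L l m K x q o w b) +
        2 * (1 / 2) ^ K * nm U L (T j) + (K : ℝ) ^ 2 * Real.sqrt (sq S U L (T j) * Lam)) ∧
    (∀ j, G4 S U m K o (T j) ω ≤ bet m K * (∑ w ∈ U, T j w (o w)) +
      4 * K * Real.sqrt (μ j * (∑ w ∈ U, T j w (o w)) * Lam))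

/-- STEP. One step: `B` = the retained vertices, `c = o`, `L' u` = the options which are alive. -/
def St_Step2 : Prop := ∀ (V κ J : Type) [Fintype V] [Fintype κ] [Fintype J] [Nonempty κ]
  (S : CS V κ) (U : Finset V) (L M : V → Finset κ) (D l m K : ℕ) (x : ℝ) (q : V → κ → ℝ)
  (Lam : ℝ) (ctr : J → V) (T : J → V → κ → ℝ) (μ : J → ℝ),
  Hyp S U L D l m K x q Lam → Tst S D ctr T μ →
  ∃ (B : Finset V) (c : V → κ) (L' : V → Finset κ), B ⊆ U ∧ (∀ u ∈ B, c u ∈ L u) ∧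
    (∀ u ∈ B, ∀ w ∈ B, u ≠ w → S.r u (c u) ≠ S.r w (c w)) ∧
    (∀ u ∈ B, ∀ w ∈ B, S.adj u w → c u ≠ c w) ∧
    (∀ u ∈ U, L' u ⊆ L u) ∧
    (∀ u ∈ U, ∀ w ∈ B, w ≠ u → ∀ a ∈ L' u, ¬ (S.adj u w ∧ c w = a) ∧
      S.r w (c w) ≠ S.r u a) ∧
    (∀ u ∈ U, (∑ a ∈ L u ∩ M u, (1 - q u a) * (1 - bet m K * x / l)) - Er K Lam l * l ≤
      ((L' u ∩ M u).card : ℝ)) ∧
    (∀ v, (((Cv S U L v).filter (fun p => p.1 ∉ B ∧ p.2 ∈ L' p.1)).card : ℝ) ≤
      (∑ p ∈ Cv S U L v, (1 - bet m K) * (1 - q p.1 p.2)) + Er K Lam l * l) ∧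
    (∀ j, ∑ w ∈ U \ B, ∑ b ∈ L' w, T j w b ≤
      (∑ w ∈ U, ∑ b ∈ L w, T j w b * Mt S U L l m K x q w b) + 4 * nm U L (T j) / l +
        64 * (K : ℝ) ^ 2 * Real.sqrt (sq S U L (T j) * Lam)) ∧
    (∀ j, ∑ w ∈ B, T j w (c w) ≤ bet m K * nm U L (T j) / l +
      12 * K * Real.sqrt ((μ j * nm U L (T j) / l + Lam * μ j ^ 2) * Lam))

/-! ### Sampling and iteration -/

/-- SAMP. Final transversal with tests: `q0` random samples for every `u ∈ U`. By BERNL and LLL0 every option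
is in conflict with at most `q0 / 4` samples of other vertices, and the tests are bounded by the sum over
all samples; then `exists_transversal` (`Pool/Agent/Helper45/Vu/IT.lean`). Coordinates `V × Fin q0`, letters
`Fin l` (enumerations of the lists). -/
def St_Samp : Prop := ∀ (V κ J : Type) [Fintype V] [Fintype κ] [Fintype J] [Nonempty κ]
  (U : Finset V) (L : V → Finset κ) (R : V → κ → V → κ → Prop) (nb : V → V → Prop)
  (l q0 N Mu : ℕ) (Lam : ℝ) (ctr : J → V) (T : J → V → κ → ℝ) (μ : J → ℝ), 0 < l →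
  (∀ u ∈ U, (L u).card = l) → (∀ u a w b, R u a w b → R w b u a) →
  (∀ u a w b, R u a w b → nb u w) → (∀ u, nb u u) → (∀ u w, nb u w → nb w u) →
  (∀ u, (univ.filter (fun w => nb u w)).card ≤ N) →
  (∀ u ∈ U, ∀ a ∈ L u, 8 * (univ.filter (fun p : V × κ => p.1 ∈ U ∧ p.1 ≠ u ∧ p.2 ∈ L p.1 ∧
    R u a p.1 p.2)).card ≤ l) →
  (∀ j w b, 0 ≤ T j w b) → (∀ j w b, T j w b ≤ μ j) → (∀ j w b, T j w b ≠ 0 → nb (ctr j) w) →
  (∀ v, (univ.filter (fun j => ctr j = v)).card ≤ Mu) → 1 ≤ Lam → 100 * Lam ≤ q0 →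
  4 * Real.exp (-Lam) * ((N : ℝ) ^ 2 * (l + Mu) + 1) ≤ 1 →
  ∃ c : V → κ, (∀ u ∈ U, c u ∈ L u) ∧ (∀ u ∈ U, ∀ w ∈ U, u ≠ w → ¬ R u (c u) w (c w)) ∧
    ∀ j, ∑ u ∈ U, T j u (c u) ≤ q0 * nm U L (T j) / l +
      3 * Real.sqrt ((q0 * μ j * nm U L (T j) / l + Lam * μ j ^ 2) * Lam)

/-- the bound for the tests after `n` steps and the final transversal -/
noncomputable def Ht (n K : ℕ) (Lam l L0 nT sT mT : ℝ) : ℝ :=
  (n + 200 * K) * ((nT / l + n * (64 * (K : ℝ) ^ 2 * Real.sqrt (sT * Lam)) / L0) +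
    12 * K * Real.sqrt ((mT * (nT / l + n * (64 * (K : ℝ) ^ 2 * Real.sqrt (sT * Lam)) / L0) +
      Lam * mT ^ 2) * Lam))

/-- ITER. `m = 8 K`. Iteration of STEP (with `D + 1` instead of `D`, `q = β (1 - g)`, `x = (1 - g) l`, `M = L`, and the tests
`T (u, a) w b = 1` if `b = a` and `w ∈ Pn u a` besides the given ones) until the gap is `15 / 16`, then SAMP with
`q0 = 100 K`. The lists are trimmed to a common length `l'` after every step. `nm / l` increases in one step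
at most by `64 K² √(sT Lam) / l'`, since `(1 - β)(1 - β x / l) + 4 / l ≤ (1 - q)(1 - β x / l) - Er - 1 / l`. -/
def St_Iter2 : Prop := ∀ (V κ J : Type) [Fintype V] [Fintype κ] [Fintype J] [Nonempty κ]
  (S : CS V κ) (n : ℕ) (U : Finset V) (L : V → Finset κ) (D l K L0 : ℕ)
  (g Lam nT sT mT : ℝ) (ctr : J → V) (T : J → V → κ → ℝ),
  (∀ u, (univ.filter (fun v => S.adj u v)).card ≤ D) → Fintype.card κ ≤ D →
  (∀ u ∈ U, (L u).card = l) →
  (∀ u ∈ U, ∀ a ∈ L u, ∀ a' ∈ L u, S.r u a = S.r u a' → a = a') →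
  (∀ v, ((Cv S U L v).card : ℝ) ≤ (1 - g) * l) →
  (∀ u ∈ U, ∀ a ∈ L u, ((Pn S U L u a).card : ℝ) ≤ (1 - g) * l) →
  0 < g → g ≤ 15 / 16 → 24 ≤ K → 1 ≤ Lam → Lam ≤ K →
  4 * Real.exp (-Lam) * ((3 * ((D + 1 : ℕ) : ℝ) + 2) ^ 24 + 1) ≤ 1 → 0 < L0 → Lam ≤ L0 →
  8 * Er K Lam L0 ≤ g * bet (8 * K) K / 32 → 15 / 16 ≤ g * (1 + bet (8 * K) K / 32) ^ n →
  (L0 : ℝ) ≤ l * (1 - 3 * bet (8 * K) K) ^ n → Tst S D ctr T (fun _ => mT) →
  (∀ j, nm U L (T j) ≤ nT) → (∀ j, sq S U L (T j) ≤ sT) →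
  ∃ c : V → κ, (∀ u ∈ U, c u ∈ L u) ∧
    (∀ u ∈ U, ∀ w ∈ U, u ≠ w → S.r u (c u) ≠ S.r w (c w)) ∧
    (∀ u ∈ U, ∀ w ∈ U, S.adj u w → c u ≠ c w) ∧
    ∀ j, ∑ u ∈ U, T j u (c u) ≤ Ht n K Lam l L0 nT sT mT

end Pool.TCU
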